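import Pool.Agent.R626.VZ.Code

/-!
Computability relative to a copy of an ordered group.
-/

set_option autoImplicit false
set_option linter.unusedSectionVars false

namespace Pool.Agent.R626.VZ

open Encodable Pool.Agent.Helper446 Pool.Agent.Helper446.Defs Pool.Agent.Helper446.Oracle
open Pool.Agent.Y545.HM

section general

variable {α β γ : Type*} [Primcodable α] [Primcodable β] [Primcodable γ] {A : Set ℕ}

theorem dp_of_eq {p q : α → Prop} (h : DP A p) (hpq : ∀ a, p a ↔ q a) : DP A q := by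
  have : p = q := funext fun a => propext (hpq a)
  rwa [← this]

theorem dp_all_mem {p : α → β → Prop} (h : DP A fun x : α × β => p x.1 x.2) {l : α → List β}
    (hl : Computable l) : DP A fun a => ∀ b ∈ l a, p a b := by
  constructor
  · exact REIn.all_mem (S := p) h.1 hl
  · refine (re_ex_mem (S := fun a b => ¬ p a b) h.2 hl).of_eq fun a => ?_
    push Not
    rfl

theorem dp_gr_eq {f g : α → β} (hf : Gr A f) (hg : Gr A g) : DP A fun a => f a = g a :=
  DP.gr (p := fun x : β × β => x.1 = x.2) (dp_eq (by fun_prop) (by fun_prop)) (hf.pair hg)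

theorem dp_imp {p q : α → Prop} (h : DP A p) (h' : DP A q) : DP A fun a => p a → q a :=
  dp_of_eq (h.not.or h') fun _ => by tauto

theorem dp_iff {p q : α → Prop} (h : DP A p) (h' : DP A q) : DP A fun a => (p a ↔ q a) :=
  dp_of_eq ((dp_imp h h').and (dp_imp h' h)) fun _ => by tauto

theorem gr_of_dp {f : α → β} (h : DP A fun p : α × β => f p.1 = p.2) : Gr A f := h.1

theorem computable_tail : Computable fun l : List α => l.tail :=
  Primrec.list_tail.to_comp

theorem computable_getD {l : α → List β} {n : α → ℕ} (hl : Computable l) (hn : Computable n)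
    (d : β) : Computable fun a => ((l a)[n a]?).getD d :=
  Primrec.option_getD.to_comp.comp (by fun_prop) (by fun_prop)

end general

section copy

variable {P : Type*} [AddCommGroup P] [LinearOrder P] [IsOrderedAddMonoid P] {D : Set ℕ}

/-- the relations of the copy are decidable in `D` -/
structure CopyIn (D : Set ℕ) (g : ℕ ≃ P) : Prop where
  add : DP D fun p : ℕ × ℕ × ℕ => g p.1 + g p.2.1 = g p.2.2
  lt : DP D fun p : ℕ × ℕ => g p.1 < g p.2

variable {g : ℕ ≃ P}

/-- addition on indices -/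
def addx (g : ℕ ≃ P) (p : ℕ × ℕ) : ℕ := g.symm (g p.1 + g p.2)

theorem g_addx (p : ℕ × ℕ) : g (addx g p) = g p.1 + g p.2 := g.apply_symm_apply _

theorem gr_addx (h : CopyIn D g) : Gr D (addx g) := by
  have h1 : DP D fun p : (ℕ × ℕ) × ℕ => g p.1.1 + g p.1.2 = g p.2 :=
    h.add.comp (f := fun p : (ℕ × ℕ) × ℕ => (p.1.1, p.1.2, p.2)) (by fun_prop)
  refine h1.1.of_eq fun p => ?_
  rw [← g_addx, g.injective.eq_iff]

/-- multiples on indices -/
def mulx (g : ℕ ≃ P) (p : ℕ × ℕ) : ℕ := g.symm (p.1 • g p.2)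

theorem g_mulx (p : ℕ × ℕ) : g (mulx g p) = p.1 • g p.2 := g.apply_symm_apply _

theorem gr_mulx (h : CopyIn D g) : Gr D (mulx g) := by
  let F : ℕ × ℕ → ℕ × ℕ := fun z => (z.1, addx g z)
  have hF : Gr D F := (Gr.of_comp (by fun_prop)).pair (gr_addx h)
  have h1 : Gr D fun p : ℕ × ℕ => (F^[p.1] (p.2, g.symm 0)).2 :=
    Gr.post (g := fun z : ℕ × ℕ => z.2) (by fun_prop)
      (hF.iter'.pre (g := fun p : ℕ × ℕ => ((p.2, g.symm 0), p.1)) (by fun_prop))
  refine h1.of_eq fun p => ?_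
  have h2 : ∀ n, F^[n] (p.2, g.symm 0) = (p.2, g.symm (n • g p.2)) := by
    intro n
    induction n with
    | zero => simp
    | succ n ih =>
      rw [Function.iterate_succ_apply', ih]
      show (p.2, addx g (p.2, g.symm (n • g p.2))) = _
      congr 1
      unfold addx
      rw [g.apply_symm_apply, succ_nsmul, add_comm]
  rw [h2]
  rfl

/-- indices of the elements summed -/
def linx (g : ℕ ≃ P) (bx : ℕ → ℕ) (a : List ℕ) : ℕ := g.symm (lin (fun j => g (bx j)) a)

theorem g_linx (bx : ℕ → ℕ) (a : List ℕ) : g (linx g bx a) = lin (fun j => g (bx j)) a :=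
  g.apply_symm_apply _

theorem gr_linx (h : CopyIn D g) {bx : ℕ → ℕ} (hb : Computable bx) : Gr D (linx g bx) := by
  let F : List ℕ × ℕ → List ℕ × ℕ := fun z => (z.1.tail, addx g (z.2, bx ((z.1[0]?).getD 0)))
  have h0 : Computable fun z : List ℕ × ℕ => (z.1[0]?).getD 0 :=
    computable_getD (by fun_prop) (by fun_prop) 0
  have ht : Computable fun z : List ℕ × ℕ => z.1.tail := computable_tail.comp Computable.fst
  have hF : Gr D F := (Gr.of_comp ht).pair
    ((gr_addx h).pre (g := fun z : List ℕ × ℕ => (z.2, bx ((z.1[0]?).getD 0)))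
      (Computable.snd.pair (hb.comp h0)))
  have h1 : Gr D fun a : List ℕ => (F^[a.length] (a, g.symm 0)).2 :=
    Gr.post (g := fun z : List ℕ × ℕ => z.2) (by fun_prop)
      (hF.iter'.pre (g := fun a : List ℕ => ((a, g.symm 0), a.length)) (by fun_prop))
  refine h1.of_eq fun a => ?_
  have h2 : ∀ (a : List ℕ) (x : ℕ), F^[a.length] (a, x) =
      ([], g.symm (g x + lin (fun j => g (bx j)) a)) := by
    intro a
    induction a with
    | nil => intro x; simp [lin]
    | cons j a ih =>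
      intro x
      rw [List.length_cons, Function.iterate_succ_apply]
      have : F (j :: a, x) = (a, addx g (x, bx j)) := rfl
      rw [this, ih, g_addx, lin_cons, add_assoc]
  rw [h2]
  simp [linx]

theorem gr_lin_eq (h : CopyIn D g) {α : Type*} [Primcodable α] {bx : ℕ → ℕ} (hb : Computable bx)
    {f1 f2 : α → ℕ} (h1 : Gr D f1) (h2 : Gr D f2) : DP D fun a => g (f1 a) = g (f2 a) :=
  dp_of_eq (dp_gr_eq h1 h2) fun a => (g.injective.eq_iff).symm

/-- index of the left side -/
def lhx (g : ℕ ≃ P) (bx : ℕ → ℕ) (c : C × C × C) : ℕ :=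
  addx g (mulx g ((c.2.1.2.2 + 1) * (c.2.2.2.2 + 1), linx g bx c.1.1),
    addx g (mulx g ((c.1.2.2 + 1) * (c.2.2.2.2 + 1), linx g bx c.2.1.1),
      mulx g ((c.1.2.2 + 1) * (c.2.1.2.2 + 1), linx g bx c.2.2.2.1)))

/-- index of the right side -/
def rhx (g : ℕ ≃ P) (bx : ℕ → ℕ) (c : C × C × C) : ℕ :=
  addx g (mulx g ((c.2.1.2.2 + 1) * (c.2.2.2.2 + 1), linx g bx c.1.2.1),
    addx g (mulx g ((c.1.2.2 + 1) * (c.2.2.2.2 + 1), linx g bx c.2.1.2.1),
      mulx g ((c.1.2.2 + 1) * (c.2.1.2.2 + 1), linx g bx c.2.2.1)))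

theorem g_lhx (bx : ℕ → ℕ) (c : C × C × C) :
    g (lhx g bx c) = lhs (fun j => g (bx j)) c := by
  unfold lhx lhs
  rw [g_addx, g_mulx, g_addx, g_mulx, g_mulx, g_linx, g_linx, g_linx]

theorem g_rhx (bx : ℕ → ℕ) (c : C × C × C) :
    g (rhx g bx c) = rhs (fun j => g (bx j)) c := by
  unfold rhx rhs
  rw [g_addx, g_mulx, g_addx, g_mulx, g_mulx, g_linx, g_linx, g_linx]

theorem gr_mul_lin (h : CopyIn D g) {bx : ℕ → ℕ} (hb : Computable bx) {α : Type*} [Primcodable α]
    {n : α → ℕ} {l : α → List ℕ} (hn : Computable n) (hl : Computable l) :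
    Gr D fun a => mulx g (n a, linx g bx (l a)) :=
  (gr_mulx h).comp ((Gr.of_comp hn).pair ((gr_linx h hb).pre hl))

theorem gr_add3 (h : CopyIn D g) {α : Type*} [Primcodable α]
    {f1 f2 f3 : α → ℕ} (h1 : Gr D f1) (h2 : Gr D f2) (h3 : Gr D f3) :
    Gr D fun a => addx g (f1 a, addx g (f2 a, f3 a)) :=
  (gr_addx h).comp (h1.pair ((gr_addx h).comp (h2.pair h3)))

theorem gr_lhx (h : CopyIn D g) {bx : ℕ → ℕ} (hb : Computable bx) : Gr D (lhx g bx) := by
  refine gr_add3 h (gr_mul_lin h hb ?_ ?_) (gr_mul_lin h hb ?_ ?_) (gr_mul_lin h hb ?_ ?_) <;>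
    fun_prop

theorem gr_rhx (h : CopyIn D g) {bx : ℕ → ℕ} (hb : Computable bx) : Gr D (rhx g bx) := by
  refine gr_add3 h (gr_mul_lin h hb ?_ ?_) (gr_mul_lin h hb ?_ ?_) (gr_mul_lin h hb ?_ ?_) <;>
    fun_prop

variable {B : Type*} [AddCommGroup B] [LinearOrder B] [IsOrderedAddMonoid B] [Module ℚ B]

theorem gr_cmp (h : CopyIn D g) {bx : ℕ → ℕ} (hb : Computable bx) {i : P →+ B}
    (hi : StrictMono i) : Gr D (cmp (fun j => g (bx j)) i) := by
  have hlt : DP D fun c : C × C × C => g (lhx g bx c) < g (rhx g bx c) :=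
    h.lt.gr ((gr_lhx h hb).pair (gr_rhx h hb))
  have heq : DP D fun c : C × C × C => g (lhx g bx c) = g (rhx g bx c) :=
    gr_lin_eq h hb (gr_lhx h hb) (gr_rhx h hb)
  have h1 : DP D fun x : (C × C × C) × ℕ =>
      (g (lhx g bx x.1) < g (rhx g bx x.1) ∧ x.2 = 0) ∨
      (¬ g (lhx g bx x.1) < g (rhx g bx x.1) ∧ g (lhx g bx x.1) = g (rhx g bx x.1) ∧ x.2 = 1) ∨
      (¬ g (lhx g bx x.1) < g (rhx g bx x.1) ∧ ¬ g (lhx g bx x.1) = g (rhx g bx x.1) ∧
        x.2 = 2) := by
    have a1 := hlt.comp (f := fun x : (C × C × C) × ℕ => x.1) (by fun_prop)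
    have a2 := heq.comp (f := fun x : (C × C × C) × ℕ => x.1) (by fun_prop)
    have a3 : ∀ n : ℕ, DP D fun x : (C × C × C) × ℕ => x.2 = n := fun n =>
      dp_eq (by fun_prop) (by fun_prop)
    exact (a1.and (a3 0)).or ((a1.not.and (a2.and (a3 1))).or (a1.not.and (a2.not.and (a3 2))))
  refine h1.1.of_eq fun x => ?_
  obtain ⟨c, v⟩ := x
  simp only [g_lhx, g_rhx]
  have e0 := cmp_eq_zero (fun j => g (bx j)) hi c
  have e1 := cmp_eq_one (fun j => g (bx j)) hi c
  rcases lt_trichotomy (lhs (fun j => g (bx j)) c) (rhs (fun j => g (bx j)) c) with hh | hh | hh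
  · rw [e0.2 hh]
    simp only [hh, hh.ne, true_and, not_true, false_and, or_false]
    exact eq_comm
  · rw [e1.2 hh]
    simp only [hh, lt_irrefl, false_and, not_false_eq_true, true_and, not_true, or_false,
      false_or]
    exact eq_comm
  · have e2 : cmp (fun j => g (bx j)) i c = 2 := by
      have h3 := mt e0.1 hh.not_gt
      have h4 := mt e1.1 hh.ne'
      unfold cmp sg at h3 h4 ⊢
      split_ifs at h3 h4 ⊢ with h5 h6
      · exact absurd rfl h3
      · exact absurd rfl h4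
      · rfl
    rw [e2]
    simp only [hh.not_gt, hh.ne', false_and, not_false_eq_true, true_and, false_or]
    exact eq_comm

end copy

end Pool.Agent.R626.VZ
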