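import Mathlib

/-!
Ordered vector spaces over the rationals: cuts, substitutions, collapse of finitely many facts.
-/

set_option autoImplicit false
set_option linter.unusedSectionVars false

namespace Pool.Agent.R626.VZ

section order

variable {B : Type*} [AddCommGroup B] [LinearOrder B] [IsOrderedAddMonoid B] [Module ℚ B]

theorem nsmul_rat (q : ℚ) (x : B) : q.den • (q • x) = q.num • x := by
  rw [← Nat.cast_smul_eq_nsmul ℚ, ← Int.cast_smul_eq_zsmul ℚ, smul_smul]
  congr 1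
  rw [mul_comm]
  exact Rat.mul_den_eq_num q

theorem rat_smul_pos {q : ℚ} {x : B} (hq : 0 < q) (hx : 0 < x) : 0 < q • x := by
  by_contra hcon
  rw [not_lt] at hcon
  have h1 : q.den • (q • x) ≤ 0 := nsmul_nonpos hcon _
  rw [nsmul_rat] at h1
  have h2 : 0 < q.num • x := zsmul_pos hx (Rat.num_pos.2 hq)
  exact absurd h1 (not_le.2 h2)

theorem rat_smul_pos_iff {q : ℚ} {x : B} (hq : 0 < q) : 0 < q • x ↔ 0 < x := by
  refine ⟨fun h => ?_, rat_smul_pos hq⟩
  have := rat_smul_pos (inv_pos.2 hq) h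
  rwa [smul_smul, inv_mul_cancel₀ hq.ne', one_smul] at this

theorem rat_smul_neg_iff {q : ℚ} {x : B} (hq : 0 < q) : q • x < 0 ↔ x < 0 := by
  rw [← neg_pos, ← smul_neg, rat_smul_pos_iff hq, neg_pos]

theorem rat_smul_pos_iff' {q : ℚ} {x : B} (hq : q < 0) : 0 < q • x ↔ x < 0 := by
  have h := rat_smul_pos_iff (q := -q) (x := -x) (neg_pos.2 hq)
  rwa [smul_neg, neg_smul, neg_neg, neg_pos] at h

theorem rat_smul_neg_iff' {q : ℚ} {x : B} (hq : q < 0) : q • x < 0 ↔ 0 < x := by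
  have h := rat_smul_neg_iff (q := -q) (x := -x) (neg_pos.2 hq)
  rwa [smul_neg, neg_smul, neg_neg, neg_lt_zero] at h

open Classical in
/-- the sign, as a natural number -/
noncomputable def sg (x : B) : ℕ := if x < 0 then 0 else if x = 0 then 1 else 2

theorem sg_eq_iff {x y : B} : sg x = sg y ↔ (x < 0 ↔ y < 0) ∧ (0 < x ↔ 0 < y) := by
  unfold sg
  rcases lt_trichotomy x 0 with hx | hx | hx <;> rcases lt_trichotomy y 0 with hy | hy | hy
  · simp [hx, hy, hx.not_gt, hy.not_gt]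
  · simp [hx, hy]
  · simp [hx, hy, hy.not_gt, hy.ne']
  · simp [hx, hy]
  · simp [hx, hy]
  · simp [hx, hy, hy.not_gt, hy.ne']
  · simp [hx, hy, hx.not_gt, hx.ne']
  · simp [hx, hy, hx.not_gt, hx.ne']
  · simp [hx, hy, hx.not_gt, hy.not_gt, hx.ne', hy.ne']

theorem sg_eq_zero {x : B} : sg x = 0 ↔ x < 0 := by
  unfold sg
  split_ifs with h1 h2 <;> simp [h1]

theorem sg_eq_one {x : B} : sg x = 1 ↔ x = 0 := by
  unfold sg
  split_ifs with h1 h2
  · simp [h1.ne]
  · simp [h2]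
  · simp [h2]

/-- two points in the same cut -/
def Cut (y e q : B) : Prop := (y < q ↔ e < q) ∧ (q < y ↔ q < e)

theorem cut_exists (W : Submodule ℚ B) {u : B} (hu : u ∈ W) (hu0 : 0 < u) (Q : Finset B)
    (hQ : ∀ q ∈ Q, q ∈ W) (e : B) : ∃ y ∈ W, ∀ q ∈ Q, Cut y e q := by
  classical
  by_cases he : e ∈ Q
  · exact ⟨e, hQ e he, fun q _ => ⟨Iff.rfl, Iff.rfl⟩⟩
  -- lower and upper parts
  have hlow : ∀ q ∈ Q, q < e ∨ e < q := fun q hq =>
    lt_or_gt_of_ne fun h => he (h ▸ hq)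
  rcases (Q.filter (· < e)).eq_empty_or_nonempty with hL | hL <;>
    rcases (Q.filter (e < ·)).eq_empty_or_nonempty with hR | hR
  · refine ⟨0, W.zero_mem, fun q hq => ?_⟩
    rcases hlow q hq with h | h
    · exact absurd (Finset.mem_filter.2 ⟨hq, h⟩) (by rw [hL]; simp)
    · exact absurd (Finset.mem_filter.2 ⟨hq, h⟩) (by rw [hR]; simp)
  · obtain ⟨r, hr, hr2⟩ := Finset.exists_min_image _ id hR
    refine ⟨r - u, W.sub_mem (hQ r (Finset.mem_filter.1 hr).1) hu, fun q hq => ?_⟩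
    rcases hlow q hq with h | h
    · exact absurd (Finset.mem_filter.2 ⟨hq, h⟩) (by rw [hL]; simp)
    · have h1 : r ≤ q := hr2 q (Finset.mem_filter.2 ⟨hq, h⟩)
      have h2 : r - u < q := lt_of_lt_of_le (sub_lt_self r hu0) h1
      exact ⟨iff_of_true h2 h, iff_of_false h2.not_gt h.not_gt⟩
  · obtain ⟨r, hr, hr2⟩ := Finset.exists_max_image _ id hL
    refine ⟨r + u, W.add_mem (hQ r (Finset.mem_filter.1 hr).1) hu, fun q hq => ?_⟩
    rcases hlow q hq with h | h
    · have h1 : q ≤ r := hr2 q (Finset.mem_filter.2 ⟨hq, h⟩)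
      have h2 : q < r + u := lt_of_le_of_lt h1 (lt_add_of_pos_right r hu0)
      exact ⟨iff_of_false h2.not_gt h.not_gt, iff_of_true h2 h⟩
    · exact absurd (Finset.mem_filter.2 ⟨hq, h⟩) (by rw [hR]; simp)
  · obtain ⟨r, hr, hr2⟩ := Finset.exists_max_image _ id hL
    obtain ⟨t, ht, ht2⟩ := Finset.exists_min_image _ id hR
    have hrt : r < t := (Finset.mem_filter.1 hr).2.trans (Finset.mem_filter.1 ht).2
    have hm1 : r < (2 : ℚ)⁻¹ • (r + t) := by
      have h3 : 0 < (2 : ℚ)⁻¹ • (t - r) := rat_smul_pos (by norm_num) (sub_pos.2 hrt)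
      have h4 : (2 : ℚ)⁻¹ • (r + t) = r + (2 : ℚ)⁻¹ • (t - r) := by
        module
      rw [h4]
      exact lt_add_of_pos_right r h3
    have hm2 : (2 : ℚ)⁻¹ • (r + t) < t := by
      have h3 : 0 < (2 : ℚ)⁻¹ • (t - r) := rat_smul_pos (by norm_num) (sub_pos.2 hrt)
      have h4 : t = (2 : ℚ)⁻¹ • (r + t) + (2 : ℚ)⁻¹ • (t - r) := by
        module
      conv_rhs => rw [h4]
      exact lt_add_of_pos_right _ h3
    refine ⟨(2 : ℚ)⁻¹ • (r + t), W.smul_mem _ (W.add_mem (hQ r (Finset.mem_filter.1 hr).1)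
      (hQ t (Finset.mem_filter.1 ht).1)), fun q hq => ?_⟩
    rcases hlow q hq with h | h
    · have h1 : q ≤ r := hr2 q (Finset.mem_filter.2 ⟨hq, h⟩)
      have h2 : q < (2 : ℚ)⁻¹ • (r + t) := lt_of_le_of_lt h1 hm1
      exact ⟨iff_of_false h2.not_gt h.not_gt, iff_of_true h2 h⟩
    · have h1 : t ≤ q := ht2 q (Finset.mem_filter.2 ⟨hq, h⟩)
      have h2 : (2 : ℚ)⁻¹ • (r + t) < q := lt_of_lt_of_le hm2 h1
      exact ⟨iff_of_true h2 h, iff_of_false h2.not_gt h.not_gt⟩

/-- formal vectors -/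
abbrev Vec := ℕ →₀ ℚ

/-- evaluation of formal vectors -/
noncomputable def ev (b : ℕ → B) : Vec →ₗ[ℚ] B := Finsupp.linearCombination ℚ b

theorem ev_single (b : ℕ → B) (j : ℕ) (q : ℚ) : ev b (Finsupp.single j q) = q • b j := by
  unfold ev
  rw [Finsupp.linearCombination_single]

/-- formal vectors with support in a set -/
noncomputable abbrev Sup (S : Set ℕ) : Submodule ℚ Vec := Finsupp.supported ℚ ℚ S

/-- replace the basis vector `k` by the vector `y` -/
noncomputable def subst (k : ℕ) (y : Vec) : Vec →ₗ[ℚ] Vec :=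
  LinearMap.id + (Finsupp.lapply k).smulRight (y - Finsupp.single k 1)

theorem subst_apply (k : ℕ) (y c : Vec) :
    subst k y c = c + c k • (y - Finsupp.single k 1) := by
  unfold subst
  rw [LinearMap.add_apply, LinearMap.smulRight_apply]
  rfl

theorem subst_of_lt {k i : ℕ} (hik : i ≤ k) (y : Vec) {c : Vec} (hc : c ∈ Sup (Set.Iio i)) :
    subst k y c = c := by
  rw [subst_apply]
  have h : c k = 0 := by
    by_contra h
    have := (Finsupp.mem_supported ℚ c).1 hc (Finsupp.mem_support_iff.2 h)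
    rw [Set.mem_Iio] at this
    omega
  rw [h, zero_smul, add_zero]

/-- the lower part -/
theorem lower_part {J : Set ℕ} {k : ℕ} {c : Vec} (hc : c ∈ Sup (J ∩ Set.Iio (k + 1))) :
    c - c k • Finsupp.single k 1 ∈ Sup (J ∩ Set.Iio k) := by
  rw [Finsupp.mem_supported]
  intro j hj
  have hj' : (c - c k • Finsupp.single k (1 : ℚ) : Vec) j ≠ 0 := Finsupp.mem_support_iff.1 hj
  by_cases hjk : j = k
  · subst hjk
    exfalso
    apply hj'
    simp
  · have h1 : c j ≠ 0 := by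
      intro h
      apply hj'
      simp [h, Finsupp.single_apply, Ne.symm hjk]
    have h2 := (Finsupp.mem_supported ℚ c).1 hc (Finsupp.mem_support_iff.2 h1)
    refine ⟨h2.1, ?_⟩
    have h3 : j < k + 1 := h2.2
    show j < k
    omega

theorem subst_mem {J : Set ℕ} {k : ℕ} {y : Vec} (hy : y ∈ Sup (J ∩ Set.Iio k)) {c : Vec}
    (hc : c ∈ Sup (J ∩ Set.Iio (k + 1))) : subst k y c ∈ Sup (J ∩ Set.Iio k) := by
  have h : subst k y c = (c - c k • Finsupp.single k 1) + c k • y := by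
    rw [subst_apply, smul_sub]
    abel
  rw [h]
  exact Submodule.add_mem _ (lower_part hc) (Submodule.smul_mem _ _ hy)

theorem sg_subst {r x y : B} {t : ℚ} (h : t ≠ 0 → Cut y x (-(t⁻¹ • r))) :
    sg (r + t • y) = sg (r + t • x) := by
  rcases eq_or_ne t 0 with ht | ht
  · rw [ht, zero_smul, zero_smul]
  have h1 := h ht
  have e : ∀ z : B, r + t • z = t • (z - -(t⁻¹ • r)) := by
    intro z
    rw [smul_sub, smul_neg, smul_smul, mul_inv_cancel₀ ht, one_smul]
    abel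
  rw [e y, e x, sg_eq_iff]
  rcases lt_or_gt_of_ne ht with ht | ht
  · rw [rat_smul_neg_iff' ht, rat_smul_neg_iff' ht, rat_smul_pos_iff' ht, rat_smul_pos_iff' ht,
      sub_pos, sub_pos, sub_neg, sub_neg]
    exact ⟨h1.2, h1.1⟩
  · rw [rat_smul_neg_iff ht, rat_smul_neg_iff ht, rat_smul_pos_iff ht, rat_smul_pos_iff ht,
      sub_pos, sub_pos, sub_neg, sub_neg]
    exact h1

/-- eliminate one index -/
theorem step_exists (b : ℕ → B) (J : Set ℕ) {j1 k : ℕ} (h1 : j1 ∈ J) (hj1 : j1 < k)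
    (hpos : 0 < b j1) (T : Finset Vec) (hT : ∀ c ∈ T, c ∈ Sup (J ∩ Set.Iio (k + 1))) :
    ∃ y ∈ Sup (J ∩ Set.Iio k), ∀ c ∈ T, sg (ev b (subst k y c)) = sg (ev b c) := by
  classical
  obtain ⟨Y, hY, hcut⟩ := cut_exists (Submodule.map (ev b) (Sup (J ∩ Set.Iio k)))
    (u := b j1) ⟨Finsupp.single j1 1, Finsupp.single_mem_supported ℚ 1 ⟨h1, hj1⟩, by
      rw [ev_single, one_smul]⟩ hpos
    (T.image fun c => -((c k)⁻¹ • ev b (c - c k • Finsupp.single k 1))) (by
      intro q hq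
      obtain ⟨c, hc, rfl⟩ := Finset.mem_image.1 hq
      exact Submodule.neg_mem _ (Submodule.smul_mem _ _
        (Submodule.mem_map_of_mem (lower_part (hT c hc))))) (b k)
  obtain ⟨y, hy, rfl⟩ := hY
  refine ⟨y, hy, fun c hc => ?_⟩
  have e1 : ev b (subst k y c) = ev b (c - c k • Finsupp.single k 1) + c k • ev b y := by
    rw [← map_smul, ← map_add, subst_apply, smul_sub]
    congr 1
    abel
  have e2 : ev b c = ev b (c - c k • Finsupp.single k 1) + c k • b k := by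
    rw [map_sub, map_smul, ev_single, one_smul]
    abel
  rw [e1]
  conv_rhs => rw [e2]
  exact sg_subst fun _ => hcut _ (Finset.mem_image_of_mem _ hc)

/-- Finitely many facts survive the elimination of all indices from `i` on. -/
theorem collapse (b : ℕ → B) (J : Set ℕ) {j1 i : ℕ} (h1 : j1 ∈ J) (hj1 : j1 < i)
    (hpos : 0 < b j1) (k : ℕ) : ∀ T : Finset Vec, (∀ c ∈ T, c ∈ Sup (J ∩ Set.Iio k)) →
    ∃ L : Vec →ₗ[ℚ] Vec, (∀ c ∈ Sup (Set.Iio i), L c = c) ∧
      (∀ c ∈ Sup (J ∩ Set.Iio k), L c ∈ Sup (J ∩ Set.Iio i)) ∧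
      ∀ c ∈ T, sg (ev b (L c)) = sg (ev b c) := by
  classical
  induction k with
  | zero =>
    intro T _
    refine ⟨LinearMap.id, fun c _ => rfl, fun c hc => ?_, fun c _ => rfl⟩
    exact Finsupp.supported_mono (M := ℚ) (R := ℚ)
      (Set.inter_subset_inter_right J (Set.Iio_subset_Iio (Nat.zero_le i))) hc
  | succ k ih =>
    intro T hT
    by_cases hik : i ≤ k
    · obtain ⟨y, hy, hy2⟩ := step_exists b J h1 (lt_of_lt_of_le hj1 hik) hpos T hT
      obtain ⟨L, hL1, hL2, hL3⟩ := ih (T.image (subst k y)) (by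
        intro c hc
        obtain ⟨d, hd, rfl⟩ := Finset.mem_image.1 hc
        exact subst_mem hy (hT d hd))
      refine ⟨L.comp (subst k y), fun c hc => ?_, fun c hc => ?_, fun c hc => ?_⟩
      · rw [LinearMap.comp_apply, subst_of_lt hik y hc, hL1 c hc]
      · rw [LinearMap.comp_apply]
        exact hL2 _ (subst_mem hy hc)
      · rw [LinearMap.comp_apply, hL3 _ (Finset.mem_image_of_mem _ hc), hy2 c hc]
    · refine ⟨LinearMap.id, fun c _ => rfl, fun c hc => ?_, fun c _ => rfl⟩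
      exact Finsupp.supported_mono (M := ℚ) (R := ℚ)
        (Set.inter_subset_inter_right J (Set.Iio_subset_Iio (by omega))) hc

end order

end Pool.Agent.R626.VZ
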