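import Pool.Agent.R626.VZ.Alg
import Pool.Agent.Y545.HM.Ora2

/-!
Codes of formal vectors and their evaluation.
-/

set_option autoImplicit false
set_option linter.unusedSectionVars false

namespace Pool.Agent.R626.VZ

/-- codes: positive part, negative part, denominator minus one -/
abbrev C := List ℕ × List ℕ × ℕ

/-- formal sum of a list of indices -/
noncomputable def sl (a : List ℕ) : Vec := (a.map fun j => Finsupp.single j (1 : ℚ)).sum

theorem sl_nil : sl [] = 0 := rfl

theorem sl_cons (j : ℕ) (a : List ℕ) : sl (j :: a) = Finsupp.single j 1 + sl a := by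
  unfold sl; rw [List.map_cons, List.sum_cons]

theorem sl_append (a b : List ℕ) : sl (a ++ b) = sl a + sl b := by
  unfold sl; rw [List.map_append, List.sum_append]

theorem sl_replicate (n j : ℕ) : sl (List.replicate n j) = Finsupp.single j (n : ℚ) := by
  induction n with
  | zero => simp [sl_nil]
  | succ n ih =>
    rw [List.replicate_succ, sl_cons, ih, ← Finsupp.single_add]
    congr 1
    push_cast
    ring

theorem sl_mul (n : ℕ) (a : List ℕ) : ∃ a', sl a' = (n : ℚ) • sl a ∧ ∀ j ∈ a', j ∈ a := by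
  induction n with
  | zero => exact ⟨[], by simp [sl_nil], fun j hj => by simp at hj⟩
  | succ n ih =>
    obtain ⟨a', h1, h2⟩ := ih
    refine ⟨a' ++ a, ?_, fun j hj => ?_⟩
    · rw [sl_append, h1]
      push_cast
      rw [add_smul, one_smul]
    · rcases List.mem_append.1 hj with h | h
      · exact h2 j h
      · exact h

/-- the formal vector with the given code -/
noncomputable def co (c : C) : Vec := ((c.2.2 + 1 : ℕ) : ℚ)⁻¹ • (sl c.1 - sl c.2.1)

theorem sl_mem {S : Set ℕ} {a : List ℕ} (h : ∀ j ∈ a, j ∈ S) : sl a ∈ Sup S := by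
  induction a with
  | nil => exact Submodule.zero_mem _
  | cons j a ih =>
    rw [sl_cons]
    exact Submodule.add_mem _ (Finsupp.single_mem_supported ℚ 1 (h j (by simp)))
      (ih fun i hi => h i (by simp [hi]))

theorem co_mem {S : Set ℕ} {c : C} (h1 : ∀ j ∈ c.1, j ∈ S) (h2 : ∀ j ∈ c.2.1, j ∈ S) :
    co c ∈ Sup S :=
  Submodule.smul_mem _ _ (Submodule.sub_mem _ (sl_mem h1) (sl_mem h2))

theorem code_exists (q : Vec) : ∃ c : C, co c = q ∧ (∀ j ∈ c.1, j ∈ q.support) ∧
    ∀ j ∈ c.2.1, j ∈ q.support := by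
  induction q using Finsupp.induction with
  | zero => exact ⟨([], [], 0), by simp [co, sl_nil], by simp, by simp⟩
  | single_add j t f hj ht ih =>
    obtain ⟨⟨a, b, N⟩, hc, ha, hb⟩ := ih
    obtain ⟨a', ha', ha2⟩ := sl_mul t.den a
    obtain ⟨b', hb', hb2⟩ := sl_mul t.den b
    have hsupp : (Finsupp.single j t + f).support = Finset.cons j f.support hj :=
      Finsupp.support_single_add hj ht
    refine ⟨(List.replicate ((N + 1) * t.num.toNat) j ++ a',
      List.replicate ((N + 1) * (-t.num).toNat) j ++ b', (N + 1) * t.den - 1), ?_, ?_, ?_⟩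
    · have hd : (N + 1) * t.den - 1 + 1 = (N + 1) * t.den := by
        have := t.den_pos
        have h2 : 0 < (N + 1) * t.den := Nat.mul_pos (Nat.succ_pos N) this
        omega
      unfold co at hc ⊢
      simp only [hd, sl_append, sl_replicate, ha', hb'] at hc ⊢
      have h1 : sl a - sl b = ((N + 1 : ℕ) : ℚ) • f := by
        rw [← hc, smul_smul, mul_inv_cancel₀ (by positivity), one_smul]
      have h3 : ((t.num.toNat : ℕ) : ℚ) - (((-t.num).toNat : ℕ) : ℚ) = (t.num : ℚ) := by
        have : ((t.num.toNat : ℕ) : ℤ) - (((-t.num).toNat : ℕ) : ℤ) = t.num := by omega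
        exact_mod_cast this
      have h4 : Finsupp.single j (((N + 1) * t.num.toNat : ℕ) : ℚ) + (t.den : ℚ) • sl a -
          (Finsupp.single j (((N + 1) * (-t.num).toNat : ℕ) : ℚ) + (t.den : ℚ) • sl b) =
          Finsupp.single j (((N + 1) * t.den : ℕ) * t : ℚ) +
            (((N + 1) * t.den : ℕ) : ℚ) • f := by
        have h5 : Finsupp.single j (((N + 1) * t.num.toNat : ℕ) : ℚ) + (t.den : ℚ) • sl a -
          (Finsupp.single j (((N + 1) * (-t.num).toNat : ℕ) : ℚ) + (t.den : ℚ) • sl b) =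
          (Finsupp.single j (((N + 1) * t.num.toNat : ℕ) : ℚ) -
          Finsupp.single j (((N + 1) * (-t.num).toNat : ℕ) : ℚ)) + (t.den : ℚ) • (sl a - sl b) := by
          rw [smul_sub]; abel
        rw [h5, h1, ← Finsupp.single_sub, smul_smul]
        congr 2
        · push_cast
          rw [← mul_sub, h3]
          have h6 : (t.den : ℚ) * t = t.num := by
            rw [mul_comm]; exact Rat.mul_den_eq_num t
          rw [mul_assoc, h6]
        · push_cast
          ring
      rw [h4, smul_add, smul_smul, inv_mul_cancel₀ (by have := t.den_pos; positivity), one_smul,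
        Finsupp.smul_single, smul_eq_mul, ← mul_assoc,
        inv_mul_cancel₀ (by have := t.den_pos; positivity), one_mul]
    · intro i hi
      rw [hsupp, Finset.mem_cons]
      rcases List.mem_append.1 hi with h | h
      · exact Or.inl (List.eq_of_mem_replicate h)
      · exact Or.inr (ha i (ha2 i h))
    · intro i hi
      rw [hsupp, Finset.mem_cons]
      rcases List.mem_append.1 hi with h | h
      · exact Or.inl (List.eq_of_mem_replicate h)
      · exact Or.inr (hb i (hb2 i h))

section group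

variable {P : Type*} [AddCommGroup P]

/-- sum of a list of indexed elements -/
def lin (b : ℕ → P) (a : List ℕ) : P := (a.map b).sum

theorem lin_cons (b : ℕ → P) (j : ℕ) (a : List ℕ) : lin b (j :: a) = b j + lin b a := by
  unfold lin; rw [List.map_cons, List.sum_cons]

variable {B : Type*} [AddCommGroup B] [LinearOrder B] [IsOrderedAddMonoid B] [Module ℚ B]

theorem ev_sl (b : ℕ → P) (i : P →+ B) (a : List ℕ) :
    ev (fun j => i (b j)) (sl a) = i (lin b a) := by
  induction a with
  | nil =>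
    rw [sl_nil, map_zero]
    exact (map_zero i).symm
  | cons j a ih =>
    rw [sl_cons, lin_cons, map_add, map_add, ih, ev_single, one_smul]

theorem ev_co (b : ℕ → P) (i : P →+ B) (c : C) :
    ((c.2.2 + 1 : ℕ) : ℚ) • ev (fun j => i (b j)) (co c) = i (lin b c.1) - i (lin b c.2.1) := by
  unfold co
  rw [map_smul, smul_smul, mul_inv_cancel₀ (by positivity), one_smul, map_sub, ev_sl, ev_sl]

variable [LinearOrder P] [IsOrderedAddMonoid P]

/-- the left side of the cleared comparison -/
def lhs (b : ℕ → P) (c : C × C × C) : P :=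
  ((c.2.1.2.2 + 1) * (c.2.2.2.2 + 1)) • lin b c.1.1 +
    (((c.1.2.2 + 1) * (c.2.2.2.2 + 1)) • lin b c.2.1.1 +
      ((c.1.2.2 + 1) * (c.2.1.2.2 + 1)) • lin b c.2.2.2.1)

/-- the right side of the cleared comparison -/
def rhs (b : ℕ → P) (c : C × C × C) : P :=
  ((c.2.1.2.2 + 1) * (c.2.2.2.2 + 1)) • lin b c.1.2.1 +
    (((c.1.2.2 + 1) * (c.2.2.2.2 + 1)) • lin b c.2.1.2.1 +
      ((c.1.2.2 + 1) * (c.2.1.2.2 + 1)) • lin b c.2.2.1)

/-- comparison of the sum of the first two vectors with the third -/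
noncomputable def cmp (b : ℕ → P) (i : P →+ B) (c : C × C × C) : ℕ :=
  sg (ev (fun j => i (b j)) (co c.1 + co c.2.1 - co c.2.2))

theorem cmp_key (b : ℕ → P) (i : P →+ B) (c : C × C × C) :
    (((c.1.2.2 + 1 : ℕ) * (c.2.1.2.2 + 1 : ℕ) * (c.2.2.2.2 + 1 : ℕ) : ℕ) : ℚ) •
      ev (fun j => i (b j)) (co c.1 + co c.2.1 - co c.2.2) = i (lhs b c) - i (rhs b c) := by
  have h1 := ev_co b i c.1
  have h2 := ev_co b i c.2.1
  have h3 := ev_co b i c.2.2
  rw [map_sub, map_add, ← map_sub]
  set e1 := ev (fun j => i (b j)) (co c.1)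
  set e2 := ev (fun j => i (b j)) (co c.2.1)
  set e3 := ev (fun j => i (b j)) (co c.2.2)
  have k1 : i (lin b c.1.1) = ((c.1.2.2 + 1 : ℕ) : ℚ) • e1 + i (lin b c.1.2.1) := by
    rw [h1]; abel
  have k2 : i (lin b c.2.1.1) = ((c.2.1.2.2 + 1 : ℕ) : ℚ) • e2 + i (lin b c.2.1.2.1) := by
    rw [h2]; abel
  have k3 : i (lin b c.2.2.1) = ((c.2.2.2.2 + 1 : ℕ) : ℚ) • e3 + i (lin b c.2.2.2.1) := by
    rw [h3]; abel
  unfold lhs rhs
  rw [map_sub, map_add, map_add, map_add, map_add]
  simp only [map_nsmul]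
  rw [k1, k2, k3]
  simp only [← Nat.cast_smul_eq_nsmul ℚ]
  push_cast
  module

theorem cmp_eq_zero (b : ℕ → P) {i : P →+ B} (hi : StrictMono i) (c : C × C × C) :
    cmp b i c = 0 ↔ lhs b c < rhs b c := by
  have h := cmp_key b i c
  unfold cmp
  rw [sg_eq_zero, ← hi.lt_iff_lt, ← sub_neg (a := i (lhs b c)), ← h,
    rat_smul_neg_iff (by positivity)]

theorem cmp_eq_one (b : ℕ → P) {i : P →+ B} (hi : StrictMono i) (c : C × C × C) :
    cmp b i c = 1 ↔ lhs b c = rhs b c := by
  have h := cmp_key b i c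
  unfold cmp
  rw [sg_eq_one, ← hi.injective.eq_iff, ← sub_eq_zero (a := i (lhs b c)), ← h, smul_eq_zero]
  constructor
  · intro h2; exact Or.inr h2
  · rintro (h2 | h2)
    · exfalso
      have : (0 : ℚ) < (((c.1.2.2 + 1 : ℕ) * (c.2.1.2.2 + 1 : ℕ) * (c.2.2.2.2 + 1 : ℕ) : ℕ) : ℚ) := by
        positivity
      exact this.ne' h2
    · exact h2

end group

end Pool.Agent.R626.VZ
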