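import Pool.Agent.R626.VZ.Num

/-!
The two inclusions.
-/

set_option autoImplicit false
set_option linter.unusedSectionVars false

namespace Pool.Agent.R626.VZ

open Encodable Pool.Agent.Helper446 Pool.Agent.Helper446.Defs Pool.Agent.Helper446.Oracle
open Pool.Agent.Y545.HM

section fin

variable {V : Type*} [AddCommGroup V] [LinearOrder V] [IsOrderedAddMonoid V] {D : Set ℕ}

/-- numbering of `V × ℤ` from a copy of `V` -/
def lift (f : ℕ ≃ V) (n : ℕ) : V ×ₗ ℤ :=
  toLex (f n.unpair.1, (n.unpair.2.unpair.1 : ℤ) - (n.unpair.2.unpair.2 : ℤ))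

theorem lift_surj (f : ℕ ≃ V) : Function.Surjective (lift f) := by
  intro x
  refine ⟨Nat.pair (f.symm (ofLex x).1) (Nat.pair (ofLex x).2.toNat (-(ofLex x).2).toNat), ?_⟩
  unfold lift
  simp only [Nat.unpair_pair, Equiv.apply_symm_apply]
  have h : (((ofLex x).2.toNat : ℕ) : ℤ) - (((-(ofLex x).2).toNat : ℕ) : ℤ) = (ofLex x).2 := by
    omega
  rw [h]
  rfl

theorem lift_add {f : ℕ ≃ V} (h : CopyIn D f) :
    DP D fun p : ℕ × ℕ × ℕ => lift f p.1 + lift f p.2.1 = lift f p.2.2 := by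
  have h1 : DP D fun p : ℕ × ℕ × ℕ =>
      f p.1.unpair.1 + f p.2.1.unpair.1 = f p.2.2.unpair.1 :=
    h.add.comp (f := fun p : ℕ × ℕ × ℕ => (p.1.unpair.1, p.2.1.unpair.1, p.2.2.unpair.1))
      (by fun_prop)
  have h2 : DP D fun p : ℕ × ℕ × ℕ =>
      p.1.unpair.2.unpair.1 + p.2.1.unpair.2.unpair.1 + p.2.2.unpair.2.unpair.2 =
      p.1.unpair.2.unpair.2 + p.2.1.unpair.2.unpair.2 + p.2.2.unpair.2.unpair.1 :=
    dp_eq (by fun_prop) (by fun_prop)
  refine dp_of_eq (h1.and h2) fun p => ?_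
  unfold lift
  rw [← toLex_add, toLex.injective.eq_iff, Prod.ext_iff]
  refine and_congr Iff.rfl ?_
  simp only [Prod.snd_add]
  omega

theorem lift_lt {f : ℕ ≃ V} (h : CopyIn D f) :
    DP D fun p : ℕ × ℕ => lift f p.1 < lift f p.2 := by
  have h1 : DP D fun p : ℕ × ℕ => f p.1.unpair.1 < f p.2.unpair.1 :=
    h.lt.comp (f := fun p : ℕ × ℕ => (p.1.unpair.1, p.2.unpair.1)) (by fun_prop)
  have h2 : DP D fun p : ℕ × ℕ => p.1.unpair.1 = p.2.unpair.1 :=
    dp_eq (by fun_prop) (by fun_prop)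
  have h3 : DP D fun p : ℕ × ℕ =>
      p.1.unpair.2.unpair.1 + p.2.unpair.2.unpair.2 <
      p.1.unpair.2.unpair.2 + p.2.unpair.2.unpair.1 :=
    dp_lt (by fun_prop) (by fun_prop)
  refine dp_of_eq (h1.or (h2.and h3)) fun p => ?_
  rw [Prod.Lex.lt_iff]
  unfold lift
  refine or_congr Iff.rfl (and_congr ?_ ?_)
  · exact (f.injective.eq_iff).symm
  · simp only [ofLex_toLex]
    omega

/-- the degree of a set -/
noncomputable def dg (A : Set ℕ) : TuringDegree :=
  toAntisymmetrization TuringReducible (chi A)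

theorem dg_eq {A B : Set ℕ} (h1 : Dec A B) (h2 : Dec B A) : dg A = dg B :=
  Quotient.sound (s := AntisymmRel.setoid (ℕ →. ℕ) TuringReducible)
    ⟨turingReducible_iff.2 h2, turingReducible_iff.2 h1⟩

/-- degree spectra -/
def Spec (G : Type*) [AddCommGroup G] [LinearOrder G] (cs : List G) : Set TuringDegree :=
  {d | ∃ f : ℕ ≃ G, d = dg {n |
    (n.unpair.1 = 0 ∧ f n.unpair.2.unpair.1 + f n.unpair.2.unpair.2.unpair.1 =
      f n.unpair.2.unpair.2.unpair.2) ∨
    (n.unpair.1 = 1 ∧ f n.unpair.2.unpair.1 < f n.unpair.2.unpair.2) ∨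
    ∃ k, n.unpair.1 = k + 2 ∧ cs[k]? = some (f n.unpair.2)}}

theorem spec_eq [Module ℚ V] [Nontrivial V] (cs : List V) (cs' : List (V ×ₗ ℤ)) :
    Spec V cs = Spec (V ×ₗ ℤ) cs' := by
  haveI : Nontrivial (V ×ₗ ℤ) := ⟨⟨toLex (0, 0), toLex (0, 1), fun h => by
    have := congrArg (fun x => (ofLex x).2) h
    simp at this⟩⟩
  ext d
  constructor
  · rintro ⟨f, rfl⟩
    have h := copyIn_diag cs f
    obtain ⟨g, h1, h2⟩ := exact_copy cs' (lift_surj f) (lift_add h) (lift_lt h)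
    exact ⟨g, dg_eq h1 h2⟩
  · rintro ⟨g, rfl⟩
    have h := copyIn_diag cs' g
    obtain ⟨val, hv1, hv2, hv3⟩ := numbering h
    obtain ⟨f, h1, h2⟩ := exact_copy cs hv1 hv2 hv3
    exact ⟨f, dg_eq h1 h2⟩

/-- unique divisibility gives a vector space structure -/
theorem exists_module (hdiv : ∀ n : ℕ, n ≠ 0 → ∀ v : V, ∃ w : V, n • w = v) :
    Nonempty (Module ℚ V) := by
  have hsurj : Function.Surjective (DivisibleHull.coeAddMonoidHom V) := by
    intro x
    induction x with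
    | mk m s =>
      obtain ⟨w, hw⟩ := hdiv s s.ne_zero m
      refine ⟨w, ?_⟩
      show DivisibleHull.mk w 1 = DivisibleHull.mk m s
      rw [DivisibleHull.mk_eq_mk_iff_smul_eq_smul, hw]
      simp
  have hinj : Function.Injective (DivisibleHull.coeAddMonoidHom V) :=
    DivisibleHull.coe_injective
  let e : V ≃+ DivisibleHull V := AddEquiv.ofBijective _ ⟨hinj, hsurj⟩
  letI : SMul ℚ V := ⟨fun q v => e.symm (q • e v)⟩
  exact ⟨Function.Injective.module ℚ (DivisibleHull.coeAddMonoidHom V) hinj fun q v =>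
    e.apply_symm_apply (q • e v)⟩

end fin

end Pool.Agent.R626.VZ
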