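import Pool.Agent.R626.VZ.Stage

/-!
From a copy of `V × ℤ` to a numbering of `V`.
-/

set_option autoImplicit false
set_option linter.unusedSectionVars false

namespace Pool.Agent.R626.VZ

open Encodable Pool.Agent.Helper446 Pool.Agent.Helper446.Defs Pool.Agent.Helper446.Oracle
open Pool.Agent.Y545.HM

section main

variable {V : Type*} [AddCommGroup V] [LinearOrder V] [IsOrderedAddMonoid V]

section emb

/-- the embedding in the divisible group -/
def emb : V ×ₗ ℤ →+ V ×ₗ ℚ where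
  toFun x := toLex ((ofLex x).1, ((ofLex x).2 : ℚ))
  map_zero' := by
    show toLex ((0 : V), ((0 : ℤ) : ℚ)) = toLex ((0 : V), (0 : ℚ))
    rw [Int.cast_zero]
  map_add' x y := by
    show toLex ((ofLex x).1 + (ofLex y).1, (((ofLex x).2 + (ofLex y).2 : ℤ) : ℚ)) =
      toLex ((ofLex x).1 + (ofLex y).1, ((ofLex x).2 : ℚ) + ((ofLex y).2 : ℚ))
    rw [Int.cast_add]

theorem emb_mono : StrictMono (emb (V := V)) := by
  intro x y hxy
  rw [Prod.Lex.lt_iff] at hxy ⊢
  rcases hxy with h | h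
  · exact Or.inl h
  · exact Or.inr ⟨h.1, Int.cast_lt.2 h.2⟩

end emb

variable [Module ℚ V] {D : Set ℕ} {g : ℕ ≃ V ×ₗ ℤ}

/-- the indexing of the generators -/
def bxx (k1 k0 : ℕ) (j : ℕ) : ℕ := if j = 0 then k1 else if j = 1 then k0 else j - 2

theorem computable_bxx (k1 k0 : ℕ) : Computable (bxx k1 k0) :=
  RE.cite (RE.cp_eq (by fun_prop) (by fun_prop)) (by fun_prop)
    (RE.cite (RE.cp_eq (by fun_prop) (by fun_prop)) (by fun_prop) (by fun_prop))

/-- witnesses of dependence -/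
abbrev Wt := ℕ × ℕ × List ℕ × List ℕ

/-- the witness shows that its first entry depends on the smaller ones -/
def Bad (b : ℕ → V ×ₗ ℤ) (t : Wt) : Prop :=
  2 ≤ t.1 ∧ (∀ j ∈ t.2.2.1, j < t.1) ∧ (∀ j ∈ t.2.2.2, j < t.1) ∧
    (t.2.1 + 1) • b t.1 + lin b t.2.2.1 = lin b t.2.2.2

/-- the witness decoded at a stage -/
def wt (s : ℕ) : Wt := (decode (α := Wt) s).getD (0, 0, [], [])

/-- the indices in use at stage `s` -/
def Js (b : ℕ → V ×ₗ ℤ) (s j : ℕ) : Prop := 1 ≤ j ∧ ∀ t < s, ¬ (Bad b (wt t) ∧ (wt t).1 = j)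

theorem computable_wt : Computable wt :=
  Primrec.option_getD.to_comp.comp (by fun_prop) (by fun_prop)

theorem dp_bad (h : CopyIn D g) (k1 k0 : ℕ) :
    DP D fun t : Wt => Bad (fun j => g (bxx k1 k0 j)) t := by
  have hb := computable_bxx k1 k0
  have h1 : DP D fun t : Wt => 2 ≤ t.1 := dp_le (by fun_prop) (by fun_prop)
  have h2 : DP D fun t : Wt => ∀ j ∈ t.2.2.1, j < t.1 :=
    dp_all_mem (p := fun (t : Wt) (j : ℕ) => j < t.1) (l := fun t => t.2.2.1)
      (dp_lt (by fun_prop) (by fun_prop)) (by fun_prop)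
  have h3 : DP D fun t : Wt => ∀ j ∈ t.2.2.2, j < t.1 :=
    dp_all_mem (p := fun (t : Wt) (j : ℕ) => j < t.1) (l := fun t => t.2.2.2)
      (dp_lt (by fun_prop) (by fun_prop)) (by fun_prop)
  have h4 : DP D fun t : Wt => addx g (mulx g (t.2.1 + 1, bxx k1 k0 t.1),
      linx g (bxx k1 k0) t.2.2.1) = linx g (bxx k1 k0) t.2.2.2 := by
    refine dp_gr_eq ?_ ((gr_linx h hb).pre (by fun_prop))
    exact (gr_addx h).comp (((gr_mulx h).pre (g := fun t : Wt => (t.2.1 + 1, bxx k1 k0 t.1))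
      (by fun_prop)).pair ((gr_linx h hb).pre (by fun_prop)))
  refine dp_of_eq (h1.and (h2.and (h3.and h4))) fun t => ?_
  unfold Bad
  rw [← g.injective.eq_iff, g_addx, g_mulx, g_linx, g_linx]

theorem dp_js (h : CopyIn D g) (k1 k0 : ℕ) :
    DP D fun p : ℕ × ℕ => Js (fun j => g (bxx k1 k0 j)) p.1 p.2 := by
  have hw := computable_wt
  refine DP.and (dp_le (by fun_prop) (by fun_prop)) ?_
  refine DP.all_lt (p := fun (p : ℕ × ℕ) (t : ℕ) =>
    ¬ (Bad (fun j => g (bxx k1 k0 j)) (wt t) ∧ (wt t).1 = p.2)) (f := fun p => p.1) ?_ (by fun_prop)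
  refine DP.not (DP.and ?_ (dp_eq (by fun_prop) (by fun_prop)))
  exact (dp_bad h k1 k0).comp (f := fun x : (ℕ × ℕ) × ℕ => wt x.2) (by fun_prop)

/-- top of a list -/
def topl (l : List ℕ) : ℕ := l.foldr (fun j m => max (j + 1) m) 0

theorem topl_le (l : List ℕ) (i : ℕ) : topl l ≤ i ↔ ∀ j ∈ l, j < i := by
  induction l with
  | nil => simp [topl]
  | cons a l ih =>
    have : topl (a :: l) = max (a + 1) (topl l) := rfl
    rw [this, max_le_iff, ih]
    simp

/-- the code uses only indices below -/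
def Low (i : ℕ) (c : C) : Prop := (∀ j ∈ c.1, j < i) ∧ ∀ j ∈ c.2.1, j < i

theorem low_iff (i : ℕ) (c : C) : Low i c ↔ topl (c.1 ++ c.2.1) ≤ i := by
  rw [topl_le]
  unfold Low
  simp only [List.mem_append]
  exact ⟨fun h j hj => hj.elim (h.1 j) (h.2 j), fun h => ⟨fun j hj => h j (Or.inl hj),
    fun j hj => h j (Or.inr hj)⟩⟩

theorem js_one (b : ℕ → V ×ₗ ℤ) (s : ℕ) : Js b s 1 :=
  ⟨le_rfl, fun t _ h => by have := h.1.1; omega⟩

theorem js_succ {b : ℕ → V ×ₗ ℤ} {s j : ℕ} (h : Js b s j) (h2 : Bad b (wt s) → (wt s).1 ≠ j) :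
    Js b (s + 1) j := by
  refine ⟨h.1, fun t ht => ?_⟩
  rcases Nat.lt_succ_iff_lt_or_eq.1 ht with ht | rfl
  · exact h.2 t ht
  · exact fun h3 => h2 h3.1 h3.2

theorem js_anti {b : ℕ → V ×ₗ ℤ} {s j : ℕ} (h : Js b (s + 1) j) : Js b s j :=
  ⟨h.1, fun t ht => h.2 t (by omega)⟩

/-- the collapse at one stage -/
theorem collapse_codes (b : ℕ → V ×ₗ ℤ) (hb1 : 0 < emb (b 1)) (s : ℕ) (U : List C)
    (hb : Bad b (wt s))
    (hU : ∀ c ∈ U, (∀ j ∈ c.1, Js b s j) ∧ ∀ j ∈ c.2.1, Js b s j) :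
    ∃ h : C → C, (∀ c ∈ U, (∀ j ∈ (h c).1, Js b (s + 1) j) ∧ ∀ j ∈ (h c).2.1, Js b (s + 1) j) ∧
    (∀ c ∈ U, Low (wt s).1 c → h c = c) ∧ (∀ c ∈ U, Low (wt s).1 (h c)) ∧
    ∀ x ∈ U, ∀ y ∈ U, ∀ z ∈ U, cmp b emb (h x, h y, h z) = cmp b emb (x, y, z) := by
  classical
  obtain ⟨k, hk⟩ : ∃ k, ∀ c ∈ U, Low k c := by
    refine ⟨U.toFinset.sup fun c => topl (c.1 ++ c.2.1), fun c hc => ?_⟩
    rw [low_iff]
    exact Finset.le_sup (f := fun c : C => topl (c.1 ++ c.2.1)) (List.mem_toFinset.2 hc)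
  have hco : ∀ c ∈ U, co c ∈ Sup ({j | Js b s j} ∩ Set.Iio k) := fun c hc =>
    co_mem (fun j hj => ⟨(hU c hc).1 j hj, (hk c hc).1 j hj⟩)
      (fun j hj => ⟨(hU c hc).2 j hj, (hk c hc).2 j hj⟩)
  obtain ⟨L, hL1, hL2, hL3⟩ := collapse (fun j => emb (b j)) {j | Js b s j} (j1 := 1)
    (i := (wt s).1) (js_one b s) (by have := hb.1; omega) hb1 k
    ((U.toFinset ×ˢ (U.toFinset ×ˢ U.toFinset)).image fun c => co c.1 + co c.2.1 - co c.2.2) (by
      intro v hv
      obtain ⟨⟨x, y, z⟩, hxyz, rfl⟩ := Finset.mem_image.1 hv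
      simp only [Finset.mem_product, List.mem_toFinset] at hxyz
      exact Submodule.sub_mem _ (Submodule.add_mem _ (hco x hxyz.1) (hco y hxyz.2.1))
        (hco z hxyz.2.2))
  choose! e he1 he2 he3 using fun c : C => code_exists (L (co c))
  have hsup : ∀ c ∈ U, ∀ j ∈ (L (co c)).support, Js b s j ∧ j < (wt s).1 := fun c hc j hj =>
    (Finsupp.mem_supported ℚ _).1 (hL2 _ (hco c hc)) hj
  refine ⟨fun c => if Low (wt s).1 c then c else e c, fun c hc => ?_, fun c _ hl => if_pos hl,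
    fun c hc => ?_, fun x hx y hy z hz => ?_⟩
  · show (∀ j ∈ (if Low (wt s).1 c then c else e c).1, Js b (s + 1) j) ∧
      ∀ j ∈ (if Low (wt s).1 c then c else e c).2.1, Js b (s + 1) j
    by_cases hl : Low (wt s).1 c
    · rw [if_pos hl]
      exact ⟨fun j hj => js_succ ((hU c hc).1 j hj) fun _ => (hl.1 j hj).ne',
        fun j hj => js_succ ((hU c hc).2 j hj) fun _ => (hl.2 j hj).ne'⟩
    · rw [if_neg hl]
      exact ⟨fun j hj => js_succ (hsup c hc j (he2 c j hj)).1 fun _ =>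
          (hsup c hc j (he2 c j hj)).2.ne',
        fun j hj => js_succ (hsup c hc j (he3 c j hj)).1 fun _ =>
          (hsup c hc j (he3 c j hj)).2.ne'⟩
  · show Low (wt s).1 (if Low (wt s).1 c then c else e c)
    by_cases hl : Low (wt s).1 c
    · rw [if_pos hl]; exact hl
    · rw [if_neg hl]
      exact ⟨fun j hj => (hsup c hc j (he2 c j hj)).2, fun j hj => (hsup c hc j (he3 c j hj)).2⟩
  · have hcL : ∀ c ∈ U, co (if Low (wt s).1 c then c else e c) = L (co c) := by
      intro c hc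
      by_cases hl : Low (wt s).1 c
      · rw [if_pos hl]
        exact (hL1 _ (co_mem hl.1 hl.2)).symm
      · rw [if_neg hl, he1]
    show sg (ev (fun j => emb (b j)) (co (if Low (wt s).1 x then x else e x) +
      co (if Low (wt s).1 y then y else e y) - co (if Low (wt s).1 z then z else e z))) =
      sg (ev (fun j => emb (b j)) (co x + co y - co z))
    rw [hcL x hx, hcL y hy, hcL z hz, ← map_add, ← map_sub]
    refine hL3 _ (Finset.mem_image.2 ⟨(x, y, z), ?_, rfl⟩)
    simp only [Finset.mem_product, List.mem_toFinset]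
    exact ⟨hx, hy, hz⟩

/-- the system of the construction -/
noncomputable def sys (h : CopyIn D g) (k1 k0 : ℕ)
    (hb1 : 0 < emb (g (bxx k1 k0 1))) : Sys D C where
  vd s c := (∀ j ∈ c.1, Js (fun j => g (bxx k1 k0 j)) s j) ∧
    ∀ j ∈ c.2.1, Js (fun j => g (bxx k1 k0 j)) s j
  low := Low
  act s := Bad (fun j => g (bxx k1 k0 j)) (wt s) ∧ Js (fun j => g (bxx k1 k0 j)) s (wt s).1
  ix s := (wt s).1
  F := cmp (fun j => g (bxx k1 k0 j)) emb
  c0 := ([], [], 0)
  hvd := by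
    refine DP.and ?_ ?_
    · refine dp_all_mem (p := fun (p : ℕ × C) (j : ℕ) => Js (fun j => g (bxx k1 k0 j)) p.1 j)
        (l := fun p => p.2.1) ?_ (by fun_prop)
      exact (dp_js h k1 k0).comp (f := fun x : (ℕ × C) × ℕ => (x.1.1, x.2)) (by fun_prop)
    · refine dp_all_mem (p := fun (p : ℕ × C) (j : ℕ) => Js (fun j => g (bxx k1 k0 j)) p.1 j)
        (l := fun p => p.2.2.1) ?_ (by fun_prop)
      exact (dp_js h k1 k0).comp (f := fun x : (ℕ × C) × ℕ => (x.1.1, x.2)) (by fun_prop)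
  hlow := by
    refine DP.and ?_ ?_
    · exact dp_all_mem (p := fun (p : ℕ × C) (j : ℕ) => j < p.1)
        (l := fun p => p.2.1) (dp_lt (by fun_prop) (by fun_prop)) (by fun_prop)
    · exact dp_all_mem (p := fun (p : ℕ × C) (j : ℕ) => j < p.1)
        (l := fun p => p.2.2.1) (dp_lt (by fun_prop) (by fun_prop)) (by fun_prop)
  hact := by
    have hw := computable_wt
    exact ((dp_bad h k1 k0).comp hw).and
      ((dp_js h k1 k0).comp (f := fun s : ℕ => (s, (wt s).1)) (by fun_prop))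
  hix := by
    have hw := computable_wt
    fun_prop
  hF := gr_cmp h (computable_bxx k1 k0) emb_mono
  anti s c hc := ⟨fun j hj => js_anti (hc.1 j hj), fun j hj => js_anti (hc.2 j hj)⟩
  keep s c ha hc := by
    refine ⟨fun j hj => js_succ (hc.1 j hj) ?_, fun j hj => js_succ (hc.2 j hj) ?_⟩
    · rintro hb rfl
      exact ha ⟨hb, hc.1 _ hj⟩
    · rintro hb rfl
      exact ha ⟨hb, hc.2 _ hj⟩
  hc0 s := ⟨fun j hj => absurd hj (by simp), fun j hj => absurd hj (by simp)⟩
  top := ⟨fun c => topl (c.1 ++ c.2.1), fun i c => low_iff i c⟩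
  col s U ha hU := collapse_codes _ hb1 s U ha.1 hU

/-- the indices that stay for ever -/
def Jw (b : ℕ → V ×ₗ ℤ) : Set ℕ := {j | ∀ s, Js b s j}

theorem mem_jw {b : ℕ → V ×ₗ ℤ} {j : ℕ} : j ∈ Jw b ↔ 1 ≤ j ∧ ∀ t, ¬ (Bad b t ∧ t.1 = j) := by
  constructor
  · intro h
    refine ⟨(h 0).1, fun t ht => (h (encode t + 1)).2 (encode t) (Nat.lt_succ_self _) ?_⟩
    have : wt (encode t) = t := by
      unfold wt
      rw [encodek]
      rfl
    rw [this]
    exact ht
  · rintro ⟨h1, h2⟩ s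
    exact ⟨h1, fun t _ => h2 (wt t)⟩

/-- a dependent index is bad -/
theorem bad_of_mem (b : ℕ → V ×ₗ ℤ) {i : ℕ} (hi : 2 ≤ i) {q : Vec} (hq : q ∈ Sup (Set.Iio i))
    (he : emb (b i) = ev (fun j => emb (b j)) q) : ∃ t, Bad b t ∧ t.1 = i := by
  obtain ⟨c, hc, h1, h2⟩ := code_exists q
  have hlt : ∀ j ∈ q.support, j < i := fun j hj => (Finsupp.mem_supported ℚ q).1 hq hj
  refine ⟨(i, c.2.2, c.2.1, c.1), ⟨hi, fun j hj => hlt j (h2 j hj), fun j hj => hlt j (h1 j hj),
    ?_⟩, rfl⟩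
  apply emb_mono.injective
  have h3 := ev_co b emb c
  rw [hc, ← he, Nat.cast_smul_eq_nsmul ℚ] at h3
  show emb ((c.2.2 + 1) • b i + lin b c.2.1) = emb (lin b c.1)
  rw [map_add, map_nsmul, h3]
  abel

theorem fst_smul (q : ℚ) (x : V ×ₗ ℚ) : (ofLex (q • x)).1 = q • (ofLex x).1 := rfl

theorem fst_add (x y : V ×ₗ ℚ) : (ofLex (x + y)).1 = (ofLex x).1 + (ofLex y).1 := rfl

/-- the projection to `V` -/
def pr : V ×ₗ ℚ →ₗ[ℚ] V where
  toFun x := (ofLex x).1
  map_add' _ _ := rfl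
  map_smul' _ _ := rfl

/-- vectors on the final indices are determined by their `V`-part -/
theorem indep (b : ℕ → V ×ₗ ℤ) (hb0 : b 0 = toLex (0, 1)) (hb1 : pr (emb (b 1)) ≠ 0) {q : Vec}
    (hq : q ∈ Sup (Jw b)) (h0 : pr (ev (fun j => emb (b j)) q) = 0) : q = 0 := by
  classical
  by_contra hne
  have hne' : q.support.Nonempty := Finsupp.support_nonempty_iff.2 hne
  obtain ⟨i, hi, hmax⟩ := Finset.exists_max_image q.support id hne'
  have hiJ : i ∈ Jw b := (Finsupp.mem_supported ℚ q).1 hq hi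
  have hi1 : 1 ≤ i := (mem_jw.1 hiJ).1
  have hqi : q i ≠ 0 := Finsupp.mem_support_iff.1 hi
  have hlt : q ∈ Sup (Set.univ ∩ Set.Iio (i + 1)) := by
    rw [Finsupp.mem_supported]
    intro j hj
    exact ⟨trivial, Nat.lt_succ_of_le (hmax j hj)⟩
  have hlow := lower_part hlt
  set p : Vec := q - q i • Finsupp.single i 1 with hp
  rw [Set.univ_inter] at hlow
  have hqp : ev (fun j => emb (b j)) q = ev (fun j => emb (b j)) p + q i • emb (b i) := by
    rw [hp, map_sub, map_smul, ev_single, one_smul]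
    abel
  rcases Nat.lt_or_ge i 2 with hi2 | hi2
  · have hi1' : i = 1 := by omega
    subst hi1'
    -- the support is contained in `{1}`
    have hp0 : p = 0 := by
      ext j
      by_contra hj
      have hj1 : j < 1 := (Finsupp.mem_supported ℚ p).1 hlow (Finsupp.mem_support_iff.2 hj)
      have hj0 : j = 0 := by omega
      subst hj0
      have h3 : q 0 ≠ 0 := by
        intro h4
        apply hj
        rw [hp]
        simp [h4]
      have h5 : (0 : ℕ) ∈ Jw b := (Finsupp.mem_supported ℚ q).1 hq (Finsupp.mem_support_iff.2 h3)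
      have := (mem_jw.1 h5).1
      omega
    rw [hqp, hp0, map_zero, zero_add, map_smul, smul_eq_zero] at h0
    rcases h0 with h0 | h0
    · exact hqi h0
    · exact hb1 h0
  · -- `i` is dependent
    obtain ⟨r, hr⟩ : ∃ r : ℚ, ev (fun j => emb (b j)) q = r • emb (b 0) := by
      have h2 : ∀ x : V ×ₗ ℚ, pr x = 0 → x = (ofLex x).2 • emb (toLex ((0 : V), (1 : ℤ))) := by
        intro x hx
        have : (ofLex x).2 • emb (toLex ((0 : V), (1 : ℤ))) =
            toLex ((ofLex x).2 • (0 : V), (ofLex x).2 • (((1 : ℤ)) : ℚ)) := rfl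
        rw [this, smul_zero, Int.cast_one, smul_eq_mul, mul_one]
        have hx' : (ofLex x).1 = 0 := hx
        rw [← hx']
        rfl
      refine ⟨(ofLex (ev (fun j => emb (b j)) q)).2, ?_⟩
      have h3 := h2 _ h0
      rw [hb0]
      exact h3
    refine (mem_jw.1 hiJ).2 _ (bad_of_mem b hi2 (q := -((q i)⁻¹ • (p -
      r • Finsupp.single 0 1))) ?_ ?_).choose_spec
    · refine Submodule.neg_mem _ (Submodule.smul_mem _ _ (Submodule.sub_mem _ hlow
        (Submodule.smul_mem _ _ (Finsupp.single_mem_supported ℚ 1 ?_))))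
      show 0 < i
      omega
    · rw [map_neg, map_smul, map_sub, map_smul, ev_single, one_smul, ← hr, hqp, sub_add_cancel_left,
        smul_neg, neg_neg, smul_smul, inv_mul_cancel₀ hqi, one_smul]

/-- the final indices span modulo the last coordinate -/
theorem span_all (b : ℕ → V ×ₗ ℤ) (hb0 : b 0 = toLex (0, 1)) (k : ℕ) :
    pr (emb (b k)) ∈ Submodule.map (pr.comp (ev fun j => emb (b j))) (Sup (Jw b)) := by
  induction k using Nat.strong_induction_on with
  | _ k ih =>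
    by_cases hk : k ∈ Jw b
    · refine ⟨Finsupp.single k 1, Finsupp.single_mem_supported ℚ 1 hk, ?_⟩
      rw [LinearMap.comp_apply, ev_single, one_smul]
    · rcases Nat.eq_zero_or_pos k with rfl | hk1
      · have : pr (emb (b 0)) = (0 : V) := by rw [hb0]; rfl
        rw [this]
        exact Submodule.zero_mem _
      · rw [mem_jw] at hk
        push Not at hk
        obtain ⟨t, ⟨h1, h2, h3, h4⟩, rfl⟩ := hk hk1
        have hl : ∀ a : List ℕ, (∀ j ∈ a, j < t.1) → pr (emb (lin b a)) ∈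
            Submodule.map (pr.comp (ev fun j => emb (b j))) (Sup (Jw b)) := by
          intro a ha
          induction a with
          | nil =>
            have : pr (emb (lin b [])) = (0 : V) := rfl
            rw [this]
            exact Submodule.zero_mem _
          | cons j a iha =>
            rw [lin_cons, map_add, map_add]
            exact Submodule.add_mem _ (ih j (ha j (by simp))) (iha fun i hi => ha i (by simp [hi]))
        have h5 : ((t.2.1 + 1 : ℕ) : ℚ) • pr (emb (b t.1)) =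
            pr (emb (lin b t.2.2.2)) - pr (emb (lin b t.2.2.1)) := by
          rw [← h4, map_add, map_add, map_nsmul, map_nsmul, Nat.cast_smul_eq_nsmul]
          abel
        have h6 : pr (emb (b t.1)) = ((t.2.1 + 1 : ℕ) : ℚ)⁻¹ •
            (pr (emb (lin b t.2.2.2)) - pr (emb (lin b t.2.2.1))) := by
          rw [← h5, smul_smul, inv_mul_cancel₀ (by positivity), one_smul]
        rw [h6]
        exact Submodule.smul_mem _ _ (Submodule.sub_mem _ (hl _ h3) (hl _ h2))

end main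

end Pool.Agent.R626.VZ
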