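import Pool.Agent.R626.VZ.Main

/-!
The numbering of `V`, copies with prescribed degree, and the degree spectra.
-/

set_option autoImplicit false
set_option linter.unusedSectionVars false

namespace Pool.Agent.R626.VZ

open Encodable Pool.Agent.Helper446 Pool.Agent.Helper446.Defs Pool.Agent.Helper446.Oracle
open Pool.Agent.Y545.HM

section main

variable {V : Type*} [AddCommGroup V] [LinearOrder V] [IsOrderedAddMonoid V]
variable [Module ℚ V] {D : Set ℕ} {g : ℕ ≃ V ×ₗ ℤ}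

theorem bound_stage (b : ℕ → V ×ₗ ℤ) (n : ℕ) : ∃ s1, ∀ i < n, (∃ t, Bad b (wt t) ∧ (wt t).1 = i) →
    ∃ t < s1, Bad b (wt t) ∧ (wt t).1 = i := by
  induction n with
  | zero => exact ⟨0, fun i hi => absurd hi (by omega)⟩
  | succ n ih =>
    obtain ⟨s1, h1⟩ := ih
    by_cases hn : ∃ t, Bad b (wt t) ∧ (wt t).1 = n
    · obtain ⟨t0, ht0⟩ := hn
      refine ⟨max s1 (t0 + 1), fun i hi hex => ?_⟩
      rcases Nat.lt_succ_iff_lt_or_eq.1 hi with hi | rfl
      · obtain ⟨t, ht, ht2⟩ := h1 i hi hex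
        exact ⟨t, lt_of_lt_of_le ht (le_max_left _ _), ht2⟩
      · exact ⟨t0, lt_of_lt_of_le (Nat.lt_succ_self _) (le_max_right _ _), ht0⟩
    · refine ⟨s1, fun i hi hex => ?_⟩
      rcases Nat.lt_succ_iff_lt_or_eq.1 hi with hi | rfl
      · exact h1 i hi hex
      · exact absurd hex hn

theorem lex_neg_iff {x : V ×ₗ ℚ} (h : pr x = 0 → x = 0) : x < 0 ↔ pr x < 0 := by
  rw [Prod.Lex.lt_iff]
  constructor
  · rintro (h1 | h1)
    · exact h1
    · have h2 : x = 0 := h h1.1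
      rw [h2] at h1
      exact absurd h1.2 (lt_irrefl _)
  · intro h1
    exact Or.inl h1

theorem numbering [Nontrivial V] (h : CopyIn D g) : ∃ val : ℕ → V, Function.Surjective val ∧
    (DP D fun p : ℕ × ℕ × ℕ => val p.1 + val p.2.1 = val p.2.2) ∧
    DP D fun p : ℕ × ℕ => val p.1 < val p.2 := by
  obtain ⟨v0, hv0⟩ : ∃ v : V, 0 < v := exists_zero_lt
  obtain ⟨k1, hk1⟩ : ∃ k1, g k1 = toLex (0, 1) := ⟨_, g.apply_symm_apply _⟩
  obtain ⟨k0, hk0⟩ : ∃ k0, g k0 = toLex (v0, 0) := ⟨_, g.apply_symm_apply _⟩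
  obtain ⟨b, hb⟩ : ∃ b : ℕ → V ×ₗ ℤ, b = fun j => g (bxx k1 k0 j) := ⟨_, rfl⟩
  have hb0 : b 0 = toLex (0, 1) := by rw [hb]; exact hk1
  have hb1' : b 1 = toLex (v0, 0) := by rw [hb]; exact hk0
  have hb2 : ∀ x, b (x + 2) = g x := by intro x; rw [hb]; rfl
  have hb1 : 0 < emb (b 1) := by
    rw [hb1', ← map_zero emb]
    apply emb_mono
    rw [Prod.Lex.lt_iff]
    exact Or.inl hv0
  have hpr1 : pr (emb (b 1)) ≠ 0 := by
    rw [hb1']
    exact hv0.ne'
  obtain ⟨fin, hf1, hf2, hf3⟩ : ∃ fin : ℕ → C, (∀ s l, (∀ j ∈ (fin l).1, Js b s j) ∧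
      ∀ j ∈ (fin l).2.1, Js b s j) ∧
      (∀ c : C, (∀ s, (∀ j ∈ c.1, Js b s j) ∧ ∀ j ∈ c.2.1, Js b s j) →
        (∃ s1, ∀ s, s1 ≤ s → (Bad b (wt s) ∧ Js b s (wt s).1) → Low (wt s).1 c) →
        ∃ l, fin l = c) ∧
      Gr D fun p : ℕ × ℕ × ℕ => cmp b emb (fin p.1, fin p.2.1, fin p.2.2) := by
    subst hb
    exact (sys h k1 k0 hb1).limit
  have hsup : ∀ l, co (fin l) ∈ Sup (Jw b) := fun l =>
    co_mem (fun j hj s => (hf1 s l).1 j hj) (fun j hj s => (hf1 s l).2 j hj)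
  have hq : ∀ x y z, (co (fin x) + co (fin y) - co (fin z)) ∈ Sup (Jw b) := fun x y z =>
    Submodule.sub_mem _ (Submodule.add_mem _ (hsup x) (hsup y)) (hsup z)
  have hind : ∀ x y z, pr (ev (fun j => emb (b j)) (co (fin x) + co (fin y) - co (fin z))) = 0 →
      ev (fun j => emb (b j)) (co (fin x) + co (fin y) - co (fin z)) = 0 := by
    intro x y z h0
    rw [indep b hb0 hpr1 (hq x y z) h0, map_zero]
  refine ⟨fun l => pr (ev (fun j => emb (b j)) (co (fin l))), ?_, ?_, ?_⟩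
  · intro v
    obtain ⟨x, hx⟩ : ∃ x, g x = toLex (v, 0) := ⟨_, g.apply_symm_apply _⟩
    obtain ⟨q, hq1, hq2⟩ := span_all b hb0 (x + 2)
    rw [hb2, hx] at hq2
    obtain ⟨c, hc, hc1, hc2⟩ := code_exists q
    have hm : ∀ j ∈ q.support, j ∈ Jw b := fun j hj => (Finsupp.mem_supported ℚ q).1 hq1 hj
    obtain ⟨l, hl⟩ := hf2 c (fun s => ⟨fun j hj => hm j (hc1 j hj) s,
      fun j hj => hm j (hc2 j hj) s⟩) (by
        obtain ⟨s1, hs1⟩ := bound_stage b (topl (c.1 ++ c.2.1))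
        refine ⟨s1, fun s hs hact => ?_⟩
        rw [low_iff]
        by_contra hcon
        rw [not_le] at hcon
        obtain ⟨t, ht, ht2⟩ := hs1 _ hcon ⟨s, hact.1, rfl⟩
        exact hact.2.2 t (lt_of_lt_of_le ht hs) ht2)
    refine ⟨l, ?_⟩
    show pr (ev (fun j => emb (b j)) (co (fin l))) = v
    rw [hl, hc]
    exact hq2
  · have h1 : DP D fun p : ℕ × ℕ × ℕ => cmp b emb (fin p.1, fin p.2.1, fin p.2.2) = 1 :=
      dp_gr_eq hf3 (Gr.of_comp (by fun_prop))
    refine dp_of_eq h1 fun p => ?_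
    unfold cmp
    rw [sg_eq_one, ← map_add pr, ← map_add (ev _), ← sub_eq_zero (b := pr _), ← map_sub pr,
      ← map_sub (ev _)]
    exact ⟨fun h => by rw [h, map_zero], hind _ _ _⟩
  · -- the zero element
    obtain ⟨z0, hz0⟩ : ∃ z0, pr (ev (fun j => emb (b j)) (co (fin z0))) = 0 := by
      obtain ⟨l, hl⟩ := hf2 ([], [], 0) (fun s => ⟨by simp, by simp⟩)
        ⟨0, fun s _ _ => ⟨by simp, by simp⟩⟩
      refine ⟨l, ?_⟩
      rw [hl]
      have : co ([], [], 0) = 0 := by unfold co; simp [sl_nil]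
      rw [this, map_zero, map_zero]
    have h1 : DP D fun p : ℕ × ℕ => cmp b emb (fin p.1, fin z0, fin p.2) = 0 := by
      refine dp_gr_eq ?_ (Gr.of_comp (by fun_prop))
      exact hf3.pre (g := fun p : ℕ × ℕ => (p.1, z0, p.2)) (by fun_prop)
    refine dp_of_eq h1 fun p => ?_
    unfold cmp
    rw [sg_eq_zero]
    show ev (fun j => emb (b j)) (co (fin p.1) + co (fin z0) - co (fin p.2)) < 0 ↔ _
    rw [lex_neg_iff (hind _ _ _), map_sub, map_sub, map_add, map_add, hz0, add_zero, sub_neg]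

end main

section copies

variable {G : Type*} [AddCommGroup G] [LinearOrder G] [IsOrderedAddMonoid G] {D : Set ℕ}

/-- the atomic diagram of the copy given by a bijection -/
def diag (cs : List G) (f : ℕ ≃ G) : Set ℕ :=
  {n | (n.unpair.1 = 0 ∧ f n.unpair.2.unpair.1 + f n.unpair.2.unpair.2.unpair.1 =
      f n.unpair.2.unpair.2.unpair.2) ∨
    (n.unpair.1 = 1 ∧ f n.unpair.2.unpair.1 < f n.unpair.2.unpair.2) ∨
    ∃ k, n.unpair.1 = k + 2 ∧ cs[k]? = some (f n.unpair.2)}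

theorem diag_add (cs : List G) (f : ℕ ≃ G) (a b c : ℕ) :
    Nat.pair 0 (Nat.pair a (Nat.pair b c)) ∈ diag cs f ↔ f a + f b = f c := by
  unfold diag
  rw [Set.mem_ofPred_eq]
  simp only [Nat.unpair_pair]
  constructor
  · rintro (h | h | ⟨k, h, -⟩)
    · exact h.2
    · exact absurd h.1 (by norm_num)
    · omega
  · intro h
    exact Or.inl ⟨trivial, h⟩

theorem diag_lt (cs : List G) (f : ℕ ≃ G) (a b : ℕ) :
    Nat.pair 1 (Nat.pair a b) ∈ diag cs f ↔ f a < f b := by
  unfold diag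
  rw [Set.mem_ofPred_eq]
  simp only [Nat.unpair_pair]
  constructor
  · rintro (h | h | ⟨k, h, -⟩)
    · exact absurd h.1 (by norm_num)
    · exact h.2
    · omega
  · intro h
    exact Or.inr (Or.inl ⟨trivial, h⟩)

theorem copyIn_diag (cs : List G) (f : ℕ ≃ G) : CopyIn (diag cs f) f := by
  constructor
  · have h1 : DP (diag cs f) fun p : ℕ × ℕ × ℕ =>
        Nat.pair 0 (Nat.pair p.1 (Nat.pair p.2.1 p.2.2)) ∈ diag cs f :=
      ⟨REIn.mem (by fun_prop), REIn.not_mem (by fun_prop)⟩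
    exact dp_of_eq h1 fun p => diag_add cs f _ _ _
  · have h1 : DP (diag cs f) fun p : ℕ × ℕ =>
        Nat.pair 1 (Nat.pair p.1 p.2) ∈ diag cs f :=
      ⟨REIn.mem (by fun_prop), REIn.not_mem (by fun_prop)⟩
    exact dp_of_eq h1 fun p => diag_lt cs f _ _

theorem dec_diag (cs : List G) {f : ℕ ≃ G} (h : CopyIn D f) : Dec D (diag cs f) := by
  have h1 : DP D fun n : ℕ => n.unpair.1 = 0 ∧ f n.unpair.2.unpair.1 +
      f n.unpair.2.unpair.2.unpair.1 = f n.unpair.2.unpair.2.unpair.2 :=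
    (dp_eq (by fun_prop) (by fun_prop)).and (h.add.comp (f := fun n : ℕ =>
      (n.unpair.2.unpair.1, n.unpair.2.unpair.2.unpair.1, n.unpair.2.unpair.2.unpair.2))
      (by fun_prop))
  have h2 : DP D fun n : ℕ => n.unpair.1 = 1 ∧ f n.unpair.2.unpair.1 < f n.unpair.2.unpair.2 :=
    (dp_eq (by fun_prop) (by fun_prop)).and (h.lt.comp (f := fun n : ℕ =>
      (n.unpair.2.unpair.1, n.unpair.2.unpair.2)) (by fun_prop))
  have h3 : DP D fun n : ℕ => 2 ≤ n.unpair.1 ∧
      (cs.map f.symm)[n.unpair.1 - 2]? = some n.unpair.2 :=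
    (dp_le (by fun_prop) (by fun_prop)).and (dp_eq (by fun_prop) (by fun_prop))
  have h4 : DP D fun n : ℕ => n ∈ diag cs f := by
    refine dp_of_eq (h1.or (h2.or h3)) fun n => ?_
    unfold diag
    rw [Set.mem_ofPred_eq]
    refine or_congr Iff.rfl (or_congr Iff.rfl ?_)
    constructor
    · rintro ⟨h5, h6⟩
      refine ⟨n.unpair.1 - 2, by omega, ?_⟩
      rw [List.getElem?_map, Option.map_eq_some_iff] at h6
      obtain ⟨a, ha, ha2⟩ := h6
      rw [ha, ← ha2, f.apply_symm_apply]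
    · rintro ⟨k, h5, h6⟩
      refine ⟨by omega, ?_⟩
      rw [h5, Nat.add_sub_cancel, List.getElem?_map, h6]
      simp
  exact h4

/-- partner in the pairs `{2 k, 2 k + 1}` -/
def partner (n : ℕ) : ℕ := if n % 2 = 0 then n + 1 else n - 1

theorem partner_even (k : ℕ) : partner (2 * k) = 2 * k + 1 := by
  unfold partner; rw [if_pos (by omega)]

theorem partner_odd (k : ℕ) : partner (2 * k + 1) = 2 * k := by
  unfold partner; rw [if_neg (by omega)]; omega

theorem computable_mod2 : Computable fun n : ℕ => n % 2 :=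
  (Primrec.nat_mod.comp Primrec.id (Primrec.const 2)).to_comp

theorem computable_div2 : Computable fun n : ℕ => n / 2 :=
  (Primrec.nat_div.comp Primrec.id (Primrec.const 2)).to_comp

theorem computable_partner : Computable partner :=
  RE.cite (RE.cp_eq computable_mod2 (by fun_prop)) (by fun_prop) (by fun_prop)

theorem gr_ite {α β : Type*} [Primcodable α] [Primcodable β] {p : α → Prop} [DecidablePred p]
    (hp : DP D p) {f g : α → β} (hf : Gr D f) (hg : Gr D g) :
    Gr D fun a => if p a then f a else g a := by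
  have h1 : REIn D fun x : α × β => (p x.1 ∧ f x.1 = x.2) ∨ (¬ p x.1 ∧ g x.1 = x.2) :=
    REIn.or (REIn.and (hp.1.comp (by fun_prop)) hf) (REIn.and (hp.2.comp (by fun_prop)) hg)
  refine h1.of_eq fun x => ?_
  by_cases hx : p x.1 <;> simp [hx]

/-- A copy of exactly the degree of the oracle from a numbering. -/
theorem exact_copy [Nontrivial G] (cs : List G) {val : ℕ → G} (hs : Function.Surjective val)
    (hadd : DP D fun p : ℕ × ℕ × ℕ => val p.1 + val p.2.1 = val p.2.2)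
    (hlt : DP D fun p : ℕ × ℕ => val p.1 < val p.2) :
    ∃ f : ℕ ≃ G, Dec D (diag cs f) ∧ Dec (diag cs f) D := by
  classical
  have heq : DP D fun p : ℕ × ℕ => val p.1 = val p.2 := by
    refine dp_of_eq (hlt.not.and
      (hlt.comp (f := fun p : ℕ × ℕ => (p.2, p.1)) (by fun_prop)).not) fun p => ?_
    simp only [not_lt]
    exact ⟨fun h => le_antisymm h.2 h.1, fun h => ⟨h.ge, h.le⟩⟩
  obtain ⟨nw, hnw⟩ : ∃ nw : ℕ → Prop, nw = fun n => ∀ m < n, ¬ val m = val n := ⟨_, rfl⟩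
  have hN : DP D nw := by
    rw [hnw]
    refine DP.all_lt (p := fun (n m : ℕ) => ¬ val m = val n) (f := fun n => n) ?_ (by fun_prop)
    exact (heq.comp (f := fun x : ℕ × ℕ => (x.2, x.1)) (by fun_prop)).not
  have hinj : ∀ a b, nw a → nw b → val a = val b → a = b := by
    intro a b ha hb h
    rw [hnw] at ha hb
    rcases lt_trichotomy a b with h1 | h1 | h1
    · exact absurd h (hb a h1)
    · exact h1
    · exact absurd h.symm (ha b h1)
  have hsurj : ∀ y, ∃ n, nw n ∧ val n = y := by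
    intro y
    refine ⟨Nat.find (hs y), ?_, Nat.find_spec (hs y)⟩
    rw [hnw]
    intro m hm h
    exact Nat.find_min (hs y) hm (h.trans (Nat.find_spec (hs y)))
  have hGinf : Infinite G := inferInstance
  have hinf : {n | nw n}.Infinite := by
    choose f hf1 hf2 using hsurj
    have hinj : Function.Injective f := fun a b h => by
      rw [← hf2 a, ← hf2 b, h]
    exact (Set.infinite_range_of_injective hinj).mono (by rintro _ ⟨y, rfl⟩; exact hf1 y)
  obtain ⟨h, hh⟩ : ∃ h : ℕ → ℕ, h = Nat.nth nw := ⟨_, rfl⟩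
  have hh1 : ∀ k, nw (h k) := fun k => by rw [hh]; exact Nat.nth_mem_of_infinite hinf k
  have hh2 : ∀ k, Nat.count nw (h k) = k := fun k => by
    rw [hh]; exact Nat.count_nth_of_infinite hinf k
  have hh3 : ∀ n, nw n → h (Nat.count nw n) = n := fun n hn => by rw [hh]; exact Nat.nth_count hn
  have hgr : Gr D h := by
    have h1 : Gr D fun n : ℕ => Nat.count nw n := by
      refine (gr_count (p := fun (_ : ℕ) (m : ℕ) => nw m) (f := fun n : ℕ => n)
        (hN.comp (f := fun x : ℕ × ℕ => x.2) (by fun_prop)) (by fun_prop)).of_eq fun n => ?_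
      rw [Nat.count_eq_card_filter_range]
    have h2 : REIn D fun p : ℕ × ℕ => nw p.2 ∧ Nat.count nw p.2 = p.1 :=
      REIn.and (hN.1.comp (by fun_prop))
        (REIn.comp h1 (f := fun p : ℕ × ℕ => (p.2, p.1)) (by fun_prop))
    refine h2.of_eq fun p => ?_
    constructor
    · rintro ⟨h3, h4⟩
      rw [← h4]
      exact hh3 _ h3
    · intro h3
      rw [← h3]
      exact ⟨hh1 _, hh2 _⟩
  obtain ⟨e, he⟩ : ∃ e : ℕ → G, e = fun k => val (h k) := ⟨_, rfl⟩
  have hbij : Function.Bijective e := by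
    rw [he]
    constructor
    · intro a b h
      have h1 := hinj _ _ (hh1 a) (hh1 b) h
      rw [← hh2 a, ← hh2 b, h1]
    · intro y
      obtain ⟨n, hn, hy⟩ := hsurj y
      exact ⟨Nat.count nw n, by simp only [hh3 n hn, hy]⟩
  -- the swap
  obtain ⟨q, hq⟩ : ∃ q : ℕ → Prop, q = fun k => (e (2 * k) < e (2 * k + 1) ↔ k ∈ D) := ⟨_, rfl⟩
  have hqD : DP D q := by
    rw [hq, he]
    refine dp_iff ?_ ⟨REIn.mem (by fun_prop), REIn.not_mem (by fun_prop)⟩
    exact hlt.gr (f := fun k : ℕ => (h (2 * k), h (2 * k + 1)))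
      ((hgr.pre (by fun_prop)).pair (hgr.pre (by fun_prop)))
  obtain ⟨π, hπ⟩ : ∃ π : ℕ → ℕ, π = fun n => if q (n / 2) then n else partner n := ⟨_, rfl⟩
  have hπe : ∀ k, π (2 * k) = if q k then 2 * k else 2 * k + 1 := by
    intro k
    rw [hπ]
    simp only [partner_even, show 2 * k / 2 = k by omega]
  have hπo : ∀ k, π (2 * k + 1) = if q k then 2 * k + 1 else 2 * k := by
    intro k
    rw [hπ]
    simp only [partner_odd, show (2 * k + 1) / 2 = k by omega]
  have hinv : Function.Involutive π := by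
    intro n
    obtain ⟨k, rfl | rfl⟩ : ∃ k, n = 2 * k ∨ n = 2 * k + 1 := ⟨n / 2, by omega⟩
    · rw [hπe]
      by_cases hk : q k
      · rw [if_pos hk, hπe, if_pos hk]
      · rw [if_neg hk, hπo, if_neg hk]
    · rw [hπo]
      by_cases hk : q k
      · rw [if_pos hk, hπo, if_pos hk]
      · rw [if_neg hk, hπe, if_neg hk]
  have hgπ : Gr D π := by
    rw [hπ]
    have hd := computable_div2
    have hp := computable_partner
    exact gr_ite (hqD.comp hd) (Gr.of_comp (by fun_prop)) (Gr.of_comp hp)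
  let f : ℕ ≃ G := hinv.toPerm.trans (Equiv.ofBijective e hbij)
  have hf : ∀ n, f n = val (h (π n)) := by
    intro n
    show e (π n) = _
    rw [he]
  have hhπ : Gr D fun n => h (π n) := hgr.comp hgπ
  have hc : CopyIn D f := by
    constructor
    · have h1 := hadd.gr (f := fun p : ℕ × ℕ × ℕ => (h (π p.1), h (π p.2.1), h (π p.2.2)))
        ((hhπ.pre (by fun_prop)).pair ((hhπ.pre (by fun_prop)).pair (hhπ.pre (by fun_prop))))
      refine dp_of_eq h1 fun p => ?_
      rw [hf, hf, hf]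
    · have h1 := hlt.gr (f := fun p : ℕ × ℕ => (h (π p.1), h (π p.2)))
        ((hhπ.pre (by fun_prop)).pair (hhπ.pre (by fun_prop)))
      refine dp_of_eq h1 fun p => ?_
      rw [hf, hf]
  refine ⟨f, dec_diag cs hc, ?_⟩
  have hkey : ∀ k, Nat.pair 1 (Nat.pair (2 * k) (2 * k + 1)) ∈ diag cs f ↔ k ∈ D := by
    intro k
    rw [diag_lt]
    show e (π (2 * k)) < e (π (2 * k + 1)) ↔ k ∈ D
    rw [hπe, hπo]
    have hne : e (2 * k) ≠ e (2 * k + 1) := fun h => by
      have := hbij.1 h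
      omega
    by_cases hk : q k
    · rw [if_pos hk, if_pos hk]
      rw [hq] at hk
      exact hk
    · rw [if_neg hk, if_neg hk]
      rw [hq] at hk
      have h1 : e (2 * k + 1) < e (2 * k) ↔ ¬ e (2 * k) < e (2 * k + 1) :=
        ⟨fun h => h.not_gt, fun h => lt_of_le_of_ne (not_lt.1 h) hne.symm⟩
      rw [h1]
      tauto
  have h1 : DP (diag cs f) fun k : ℕ => Nat.pair 1 (Nat.pair (2 * k) (2 * k + 1)) ∈ diag cs f :=
    ⟨REIn.mem (by fun_prop), REIn.not_mem (by fun_prop)⟩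
  exact dp_of_eq h1 hkey

end copies

end Pool.Agent.R626.VZ
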