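import Pool.Agent.R626.VZ.Cmp

/-!
The construction in stages, in abstract form.
-/

set_option autoImplicit false
set_option linter.unusedSectionVars false

namespace Pool.Agent.R626.VZ

open Encodable Pool.Agent.Helper446 Pool.Agent.Helper446.Defs Pool.Agent.Helper446.Oracle
open Pool.Agent.Y545.HM

section stage

variable {K : Type} [Primcodable K] {D : Set ℕ}

/-- the data of the construction -/
structure Sys (D : Set ℕ) (K : Type) [Primcodable K] where
  /-- validity at a stage -/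
  vd : ℕ → K → Prop
  /-- the code uses only indices below -/
  low : ℕ → K → Prop
  /-- the stage acts -/
  act : ℕ → Prop
  /-- the index removed -/
  ix : ℕ → ℕ
  /-- the facts -/
  F : K × K × K → ℕ
  /-- default code -/
  c0 : K
  hvd : DP D fun p : ℕ × K => vd p.1 p.2
  hlow : DP D fun p : ℕ × K => low p.1 p.2
  hact : DP D act
  hix : Computable ix
  hF : Gr D F
  anti : ∀ s c, vd (s + 1) c → vd s c
  keep : ∀ s c, ¬ act s → vd s c → vd (s + 1) c
  hc0 : ∀ s, vd s c0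
  top : ∃ top : K → ℕ, ∀ i c, low i c ↔ top c ≤ i
  col : ∀ s (U : List K), act s → (∀ c ∈ U, vd s c) → ∃ h : K → K, (∀ c ∈ U, vd (s + 1) (h c)) ∧
    (∀ c ∈ U, low (ix s) c → h c = c) ∧ (∀ c ∈ U, low (ix s) (h c)) ∧
    ∀ x ∈ U, ∀ y ∈ U, ∀ z ∈ U, F (h x, h y, h z) = F (x, y, z)

/-- entry of a list -/
def ent (c0 : K) (U : List K) (l : ℕ) : K := (U[l]?).getD c0

theorem ent_mem {c0 : K} {U : List K} {l : ℕ} (hl : l < U.length) : ent c0 U l ∈ U := by
  unfold ent
  rw [List.getElem?_eq_getElem hl]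
  exact List.getElem_mem hl

theorem ent_append_left {c0 : K} {U V : List K} {l : ℕ} (hl : l < U.length) :
    ent c0 (U ++ V) l = ent c0 U l := by
  unfold ent
  rw [List.getElem?_append_left hl]

theorem ent_append_last {c0 c : K} {U : List K} : ent c0 (U ++ [c]) U.length = c := by
  unfold ent
  rw [List.getElem?_append_right le_rfl]
  simp

theorem ent_map {c0 : K} {U : List K} {l : ℕ} (hl : l < U.length) (h : K → K) :
    ent c0 (U.map h) l = h (ent c0 U l) := by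
  unfold ent
  rw [List.getElem?_map, List.getElem?_eq_getElem hl]
  rfl

/-- enumeration of codes -/
def cdd (c0 : K) (s : ℕ) : K := (decode (α := K) s.unpair.1).getD c0

theorem cdd_pair (c0 c : K) (k : ℕ) : cdd c0 (Nat.pair (encode c) k) = c := by
  unfold cdd
  rw [Nat.unpair_pair, encodek]
  rfl

theorem computable_cdd (c0 : K) : Computable (cdd c0) :=
  Primrec.option_getD.to_comp.comp (by fun_prop) (by fun_prop)

namespace Sys

variable (Y : Sys D K)

/-- the step relation -/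
def Step (s : ℕ) (U V : List K) : Prop :=
  (∀ c ∈ V, Y.vd (s + 1) c) ∧ V.length = U.length + 1 ∧
  (∀ l < U.length, (Y.act s → ((Y.low (Y.ix s) (ent Y.c0 U l) ∧ ent Y.c0 V l = ent Y.c0 U l) ∨
    (¬ Y.low (Y.ix s) (ent Y.c0 U l) ∧ Y.low (Y.ix s) (ent Y.c0 V l)))) ∧
    (¬ Y.act s → ent Y.c0 V l = ent Y.c0 U l)) ∧
  (∀ x < U.length, ∀ y < U.length, ∀ z < U.length,
    Y.F (ent Y.c0 V x, ent Y.c0 V y, ent Y.c0 V z) =
    Y.F (ent Y.c0 U x, ent Y.c0 U y, ent Y.c0 U z)) ∧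
  (Y.vd (s + 1) (cdd Y.c0 s) → ent Y.c0 V U.length = cdd Y.c0 s)

theorem step_exists (s : ℕ) (U : List K) (hU : ∀ c ∈ U, Y.vd s c) : ∃ V, Y.Step s U V := by
  classical
  obtain ⟨h, h1, h2, h3, h4⟩ : ∃ h : K → K, (∀ c ∈ U, Y.vd (s + 1) (h c)) ∧
      (¬ Y.act s → ∀ c ∈ U, h c = c) ∧ (Y.act s → ∀ c ∈ U,
      ((Y.low (Y.ix s) c ∧ h c = c) ∨ (¬ Y.low (Y.ix s) c ∧ Y.low (Y.ix s) (h c)))) ∧
      ∀ x ∈ U, ∀ y ∈ U, ∀ z ∈ U, Y.F (h x, h y, h z) = Y.F (x, y, z) := by
    by_cases ha : Y.act s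
    · obtain ⟨h, h1, h2, h3, h4⟩ := Y.col s U ha hU
      refine ⟨h, h1, fun h => absurd ha h, fun _ c hc => ?_, h4⟩
      by_cases hl : Y.low (Y.ix s) c
      · exact Or.inl ⟨hl, h2 c hc hl⟩
      · exact Or.inr ⟨hl, h3 c hc⟩
    · exact ⟨id, fun c hc => Y.keep s c ha (hU c hc), fun _ c _ => rfl,
        fun h => absurd h ha, fun _ _ _ _ _ _ => rfl⟩
  obtain ⟨e, he, he2⟩ : ∃ e : K, Y.vd (s + 1) e ∧ (Y.vd (s + 1) (cdd Y.c0 s) → e = cdd Y.c0 s) := by
    by_cases hv : Y.vd (s + 1) (cdd Y.c0 s)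
    · exact ⟨_, hv, fun _ => rfl⟩
    · exact ⟨Y.c0, Y.hc0 _, fun h => absurd h hv⟩
  have hent : ∀ l < U.length, ent Y.c0 (U.map h ++ [e]) l = h (ent Y.c0 U l) := by
    intro l hl
    rw [ent_append_left (by rw [List.length_map]; exact hl), ent_map hl]
  refine ⟨U.map h ++ [e], ?_, ?_, ?_, ?_, ?_⟩
  · intro c hc
    rcases List.mem_append.1 hc with hc | hc
    · obtain ⟨d, hd, rfl⟩ := List.mem_map.1 hc
      exact h1 d hd
    · rw [List.mem_singleton.1 hc]
      exact he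
  · simp
  · intro l hl
    refine ⟨fun ha => ?_, fun ha => ?_⟩
    · rw [hent l hl]
      exact h3 ha _ (ent_mem hl)
    · rw [hent l hl]
      exact h2 ha _ (ent_mem hl)
  · intro x hx y hy z hz
    rw [hent x hx, hent y hy, hent z hz]
    exact h4 _ (ent_mem hx) _ (ent_mem hy) _ (ent_mem hz)
  · intro hv
    have : ent Y.c0 (U.map h ++ [e]) (U.map h).length = e := ent_append_last
    rw [List.length_map] at this
    rw [this]
    exact he2 hv

theorem computable_ent {α : Type} [Primcodable α] {U : α → List K} {l : α → ℕ} (c0 : K)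
    (hU : Computable U) (hl : Computable l) : Computable fun a => ent c0 (U a) (l a) :=
  computable_getD hU hl c0

theorem dp_step : DP D fun p : (ℕ × List K) × List K => Y.Step p.1.1 p.1.2 p.2 := by
  have hcd := computable_cdd Y.c0
  have hix := Y.hix
  have v1 : DP D fun p : (ℕ × List K) × List K => ∀ c ∈ p.2, Y.vd (p.1.1 + 1) c := by
    refine dp_all_mem (p := fun (p : (ℕ × List K) × List K) (c : K) => Y.vd (p.1.1 + 1) c)
      (l := fun p => p.2) ?_ (by fun_prop)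
    exact Y.hvd.comp (f := fun x : ((ℕ × List K) × List K) × K => (x.1.1.1 + 1, x.2))
      (by fun_prop)
  have v2 : DP D fun p : (ℕ × List K) × List K => p.2.length = p.1.2.length + 1 :=
    dp_eq (by fun_prop) (by fun_prop)
  have v3 : DP D fun p : (ℕ × List K) × List K => ∀ l < p.1.2.length,
      (Y.act p.1.1 → ((Y.low (Y.ix p.1.1) (ent Y.c0 p.1.2 l) ∧
        ent Y.c0 p.2 l = ent Y.c0 p.1.2 l) ∨
        (¬ Y.low (Y.ix p.1.1) (ent Y.c0 p.1.2 l) ∧ Y.low (Y.ix p.1.1) (ent Y.c0 p.2 l)))) ∧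
      (¬ Y.act p.1.1 → ent Y.c0 p.2 l = ent Y.c0 p.1.2 l) := by
    refine DP.all_lt (p := fun (p : (ℕ × List K) × List K) (l : ℕ) =>
      (Y.act p.1.1 → ((Y.low (Y.ix p.1.1) (ent Y.c0 p.1.2 l) ∧
        ent Y.c0 p.2 l = ent Y.c0 p.1.2 l) ∨
        (¬ Y.low (Y.ix p.1.1) (ent Y.c0 p.1.2 l) ∧ Y.low (Y.ix p.1.1) (ent Y.c0 p.2 l)))) ∧
      (¬ Y.act p.1.1 → ent Y.c0 p.2 l = ent Y.c0 p.1.2 l)) (f := fun p => p.1.2.length)
      ?_ (by fun_prop)
    have e1 : Computable fun x : ((ℕ × List K) × List K) × ℕ => ent Y.c0 x.1.1.2 x.2 :=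
      computable_ent Y.c0 (by fun_prop) (by fun_prop)
    have e2 : Computable fun x : ((ℕ × List K) × List K) × ℕ => ent Y.c0 x.1.2 x.2 :=
      computable_ent Y.c0 (by fun_prop) (by fun_prop)
    have e3 : Computable fun x : ((ℕ × List K) × List K) × ℕ => Y.ix x.1.1.1 := by fun_prop
    have a1 := Y.hact.comp (f := fun x : ((ℕ × List K) × List K) × ℕ => x.1.1.1) (by fun_prop)
    have a2 := Y.hlow.comp (f := fun x : ((ℕ × List K) × List K) × ℕ =>
      (Y.ix x.1.1.1, ent Y.c0 x.1.1.2 x.2)) (e3.pair e1)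
    have a3 := Y.hlow.comp (f := fun x : ((ℕ × List K) × List K) × ℕ =>
      (Y.ix x.1.1.1, ent Y.c0 x.1.2 x.2)) (e3.pair e2)
    have a4 : DP D fun x : ((ℕ × List K) × List K) × ℕ =>
        ent Y.c0 x.1.2 x.2 = ent Y.c0 x.1.1.2 x.2 := dp_eq e2 e1
    exact (dp_imp a1 ((a2.and a4).or (a2.not.and a3))).and (dp_imp a1.not a4)
  have v4 : DP D fun p : (ℕ × List K) × List K => ∀ x < p.1.2.length, ∀ y < p.1.2.length,
      ∀ z < p.1.2.length, Y.F (ent Y.c0 p.2 x, ent Y.c0 p.2 y, ent Y.c0 p.2 z) =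
      Y.F (ent Y.c0 p.1.2 x, ent Y.c0 p.1.2 y, ent Y.c0 p.1.2 z) := by
    refine DP.all_lt (p := fun (p : (ℕ × List K) × List K) (x : ℕ) => ∀ y < p.1.2.length,
      ∀ z < p.1.2.length, Y.F (ent Y.c0 p.2 x, ent Y.c0 p.2 y, ent Y.c0 p.2 z) =
      Y.F (ent Y.c0 p.1.2 x, ent Y.c0 p.1.2 y, ent Y.c0 p.1.2 z)) (f := fun p => p.1.2.length)
      ?_ (by fun_prop)
    refine DP.all_lt (p := fun (p : ((ℕ × List K) × List K) × ℕ) (y : ℕ) =>
      ∀ z < p.1.1.2.length, Y.F (ent Y.c0 p.1.2 p.2, ent Y.c0 p.1.2 y, ent Y.c0 p.1.2 z) =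
      Y.F (ent Y.c0 p.1.1.2 p.2, ent Y.c0 p.1.1.2 y, ent Y.c0 p.1.1.2 z))
      (f := fun p => p.1.1.2.length) ?_ (by fun_prop)
    refine DP.all_lt (p := fun (p : (((ℕ × List K) × List K) × ℕ) × ℕ) (z : ℕ) =>
      Y.F (ent Y.c0 p.1.1.2 p.1.2, ent Y.c0 p.1.1.2 p.2, ent Y.c0 p.1.1.2 z) =
      Y.F (ent Y.c0 p.1.1.1.2 p.1.2, ent Y.c0 p.1.1.1.2 p.2, ent Y.c0 p.1.1.1.2 z))
      (f := fun p => p.1.1.1.2.length) ?_ (by fun_prop)
    refine dp_gr_eq (Y.hF.pre ?_) (Y.hF.pre ?_)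
    · exact (computable_ent Y.c0 (by fun_prop) (by fun_prop)).pair
        ((computable_ent Y.c0 (by fun_prop) (by fun_prop)).pair
          (computable_ent Y.c0 (by fun_prop) (by fun_prop)))
    · exact (computable_ent Y.c0 (by fun_prop) (by fun_prop)).pair
        ((computable_ent Y.c0 (by fun_prop) (by fun_prop)).pair
          (computable_ent Y.c0 (by fun_prop) (by fun_prop)))
  have v5 : DP D fun p : (ℕ × List K) × List K => (Y.vd (p.1.1 + 1) (cdd Y.c0 p.1.1) →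
      ent Y.c0 p.2 p.1.2.length = cdd Y.c0 p.1.1) := by
    refine dp_imp ?_ (dp_eq (computable_ent Y.c0 (by fun_prop) (by fun_prop)) (by fun_prop))
    exact Y.hvd.comp (f := fun p : (ℕ × List K) × List K => (p.1.1 + 1, cdd Y.c0 p.1.1))
      (by fun_prop)
  exact v1.and (v2.and (v3.and (v4.and v5)))

/-- the sequence of states -/
theorem states : ∃ U : ℕ → List K, Gr D U ∧ U 0 = [] ∧ ∀ s, (∀ c ∈ U s, Y.vd s c) ∧
    Y.Step s (U s) (U (s + 1)) := by
  have hv : DP D fun p : (ℕ × List K) × List K => ∀ c ∈ p.1.2, Y.vd p.1.1 c := by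
    refine dp_all_mem (p := fun (p : (ℕ × List K) × List K) (c : K) => Y.vd p.1.1 c)
      (l := fun p => p.1.2) ?_ (by fun_prop)
    exact Y.hvd.comp (f := fun x : ((ℕ × List K) × List K) × K => (x.1.1.1, x.2))
      (by fun_prop)
  have h1 : DP D fun p : (ℕ × List K) × List K =>
      (¬ (∀ c ∈ p.1.2, Y.vd p.1.1 c)) ∨ Y.Step p.1.1 p.1.2 p.2 := hv.not.or Y.dp_step
  obtain ⟨f, hf, hf2⟩ := choice (R := fun (a : ℕ × List K) (V : List K) =>
    (¬ (∀ c ∈ a.2, Y.vd a.1 c)) ∨ Y.Step a.1 a.2 V) h1.1 (by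
      intro a
      by_cases hU : ∀ c ∈ a.2, Y.vd a.1 c
      · obtain ⟨V, hV⟩ := Y.step_exists a.1 a.2 hU
        exact ⟨V, Or.inr hV⟩
      · exact ⟨[], Or.inl hU⟩)
  let G : ℕ × List K → ℕ × List K := fun a => (a.1 + 1, f a)
  have hG : Gr D G := (Gr.of_comp (by fun_prop)).pair hf
  refine ⟨fun s => (G^[s] (0, [])).2, Gr.post (g := fun a : ℕ × List K => a.2) (by fun_prop)
    (hG.iter (0, [])), rfl, ?_⟩
  have h2 : ∀ s, (G^[s] (0, [])).1 = s := by
    intro s
    induction s with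
    | zero => rfl
    | succ s ih =>
      rw [Function.iterate_succ_apply']
      show (G^[s] (0, [])).1 + 1 = s + 1
      rw [ih]
  have h3 : ∀ s, (∀ c ∈ (G^[s] (0, [])).2, Y.vd s c) →
      Y.Step s (G^[s] (0, [])).2 (G^[s + 1] (0, [])).2 := by
    intro s hs
    rw [Function.iterate_succ_apply']
    show Y.Step s (G^[s] (0, [])).2 (f (G^[s] (0, [])))
    have h4 := hf2 (G^[s] (0, []))
    rw [h2 s] at h4
    rcases h4 with h4 | h4
    · exact absurd hs h4
    · exact h4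
  have h5 : ∀ s, ∀ c ∈ (G^[s] (0, [])).2, Y.vd s c := by
    intro s
    induction s with
    | zero => intro c hc; exact absurd hc (by simp)
    | succ s ih => exact (h3 s ih).1
  exact fun s => ⟨h5 s, h3 s (h5 s)⟩

theorem limit : ∃ fin : ℕ → K, (∀ s l, Y.vd s (fin l)) ∧
    (∀ c, (∀ s, Y.vd s c) → (∃ s1, ∀ s, s1 ≤ s → Y.act s → Y.low (Y.ix s) c) → ∃ l, fin l = c) ∧
    Gr D fun p : ℕ × ℕ × ℕ => Y.F (fin p.1, fin p.2.1, fin p.2.2) := by
  obtain ⟨U, hU, hU0, hS⟩ := Y.states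
  obtain ⟨top, htop⟩ := Y.top
  have hlen : ∀ s, (U s).length = s := by
    intro s
    induction s with
    | zero => rw [hU0]; rfl
    | succ s ih => rw [(hS s).2.2.1, ih]
  -- changes lower the top
  have hch : ∀ s l, l < s → ent Y.c0 (U (s + 1)) l = ent Y.c0 (U s) l ∨
      top (ent Y.c0 (U (s + 1)) l) < top (ent Y.c0 (U s) l) := by
    intro s l hl
    have h1 := (hS s).2.2.2.1 l (by rw [hlen]; exact hl)
    by_cases ha : Y.act s
    · rcases h1.1 ha with h2 | h2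
      · exact Or.inl h2.2
      · right
        have h3 := (htop _ _).1 h2.2
        have h4 := mt (htop _ _).2 h2.1
        omega
    · exact Or.inl (h1.2 ha)
  have hch2 : ∀ s l, l < s → ∀ k, ent Y.c0 (U (s + k)) l = ent Y.c0 (U s) l ∨
      top (ent Y.c0 (U (s + k)) l) < top (ent Y.c0 (U s) l) := by
    intro s l hl k
    induction k with
    | zero => exact Or.inl rfl
    | succ k ih =>
      rcases hch (s + k) l (by omega) with h1 | h1 <;> rcases ih with h2 | h2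
      · exact Or.inl (h1.trans h2)
      · right; rw [show s + (k + 1) = s + k + 1 by omega, h1]; exact h2
      · right; rw [h2] at h1; exact h1
      · right; exact h1.trans h2
  have hst : ∀ n s l, l < s → top (ent Y.c0 (U s) l) = n →
      ∃ s0, s ≤ s0 ∧ ∀ s', s0 ≤ s' → ent Y.c0 (U s') l = ent Y.c0 (U s0) l := by
    intro n
    induction n using Nat.strong_induction_on with
    | _ n ih =>
      intro s l hl hn
      by_cases hcon : ∀ k, ent Y.c0 (U (s + k)) l = ent Y.c0 (U s) l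
      · refine ⟨s, le_rfl, fun s' hs' => ?_⟩
        obtain ⟨k, rfl⟩ := Nat.exists_eq_add_of_le hs'
        exact hcon k
      · push Not at hcon
        obtain ⟨k, hk⟩ := hcon
        have h1 := (hch2 s l hl k).resolve_left hk
        obtain ⟨s0, h2, h3⟩ := ih _ (hn ▸ h1) (s + k) l (by omega) rfl
        exact ⟨s0, by omega, h3⟩
  choose! s0 hs0 hs1 using fun l => hst _ (l + 1) l (Nat.lt_succ_self l) rfl
  have hfact : ∀ s k x y z, x < s → y < s → z < s →
      Y.F (ent Y.c0 (U (s + k)) x, ent Y.c0 (U (s + k)) y, ent Y.c0 (U (s + k)) z) =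
      Y.F (ent Y.c0 (U s) x, ent Y.c0 (U s) y, ent Y.c0 (U s) z) := by
    intro s k x y z hx hy hz
    induction k with
    | zero => rfl
    | succ k ih =>
      rw [← ih]
      exact (hS (s + k)).2.2.2.2.1 x (by rw [hlen]; omega) y (by rw [hlen]; omega) z
        (by rw [hlen]; omega)
  have hanti : ∀ s k c, Y.vd (s + k) c → Y.vd s c := by
    intro s k c
    induction k with
    | zero => exact id
    | succ k ih => exact fun h => ih (Y.anti _ _ h)
  refine ⟨fun l => ent Y.c0 (U (s0 l)) l, fun s l => ?_, ?_, ?_⟩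
  · have h1 : ent Y.c0 (U (s + s0 l)) l = ent Y.c0 (U (s0 l)) l := hs1 l _ (by omega)
    show Y.vd s (ent Y.c0 (U (s0 l)) l)
    rw [← h1]
    have h2 := hs0 l
    exact hanti s (s0 l) _ ((hS (s + s0 l)).1 _ (ent_mem (by rw [hlen]; omega)))
  · rintro c hc ⟨s1, h1⟩
    have hge : s1 ≤ Nat.pair (encode c) s1 := Nat.right_le_pair _ _
    generalize hs : Nat.pair (encode c) s1 = s at hge
    have hcd : cdd Y.c0 s = c := by rw [← hs]; exact cdd_pair _ _ _
    have h2 : ent Y.c0 (U (s + 1)) s = c := by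
      have h3 := (hS s).2.2.2.2.2 (by rw [hcd]; exact hc _)
      rw [hlen, hcd] at h3
      exact h3
    have h4 : ∀ k, ent Y.c0 (U (s + 1 + k)) s = c := by
      intro k
      induction k with
      | zero => exact h2
      | succ k ih =>
        have h5 := (hS (s + 1 + k)).2.2.2.1 s (by rw [hlen]; omega)
        rw [ih] at h5
        by_cases ha : Y.act (s + 1 + k)
        · rcases h5.1 ha with h6 | h6
          · exact h6.2
          · exact absurd (h1 _ (by omega) ha) h6.1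
        · exact h5.2 ha
    refine ⟨s, ?_⟩
    have h5 := hs0 s
    obtain ⟨k, hk⟩ := Nat.exists_eq_add_of_le h5
    show ent Y.c0 (U (s0 s)) s = c
    rw [hk]
    exact h4 k
  · have h1 : Gr D fun p : ℕ × ℕ × ℕ => Y.F (ent Y.c0 (U (p.1 + p.2.1 + p.2.2 + 1)) p.1,
        ent Y.c0 (U (p.1 + p.2.1 + p.2.2 + 1)) p.2.1,
        ent Y.c0 (U (p.1 + p.2.1 + p.2.2 + 1)) p.2.2) := by
      have h2 : Gr D fun p : ℕ × ℕ × ℕ => (p, U (p.1 + p.2.1 + p.2.2 + 1)) :=
        (Gr.of_comp (by fun_prop)).pair (hU.pre (by fun_prop))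
      refine Y.hF.comp (g := fun p : ℕ × ℕ × ℕ => (ent Y.c0 (U (p.1 + p.2.1 + p.2.2 + 1)) p.1,
        ent Y.c0 (U (p.1 + p.2.1 + p.2.2 + 1)) p.2.1,
        ent Y.c0 (U (p.1 + p.2.1 + p.2.2 + 1)) p.2.2)) ?_
      exact Gr.post (g := fun x : (ℕ × ℕ × ℕ) × List K => (ent Y.c0 x.2 x.1.1,
        ent Y.c0 x.2 x.1.2.1, ent Y.c0 x.2 x.1.2.2))
        ((computable_ent Y.c0 (by fun_prop) (by fun_prop)).pair
        ((computable_ent Y.c0 (by fun_prop) (by fun_prop)).pair
          (computable_ent Y.c0 (by fun_prop) (by fun_prop)))) h2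
    refine h1.of_eq fun p => ?_
    obtain ⟨x, y, z⟩ := p
    simp only
    rw [← hfact (x + y + z + 1) (s0 x + s0 y + s0 z) x y z (by omega) (by omega) (by omega)]
    rw [hs1 x _ (by omega : s0 x ≤ x + y + z + 1 + (s0 x + s0 y + s0 z)),
      hs1 y _ (by omega : s0 y ≤ x + y + z + 1 + (s0 x + s0 y + s0 z)),
      hs1 z _ (by omega : s0 z ≤ x + y + z + 1 + (s0 x + s0 y + s0 z))]

end Sys

end stage

end Pool.Agent.R626.VZ
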