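import Pool.Agent.R626.VZ.Fin

/-!
Copies with domain `ℕ`, their atomic diagrams, and degree spectra of ordered groups with named
elements.
-/

set_option autoImplicit false

namespace Pool.Agent.R626.VZ

/-- A structure with domain `ℕ` for a language with a binary operation, a binary relation and
finitely many named elements (constants). -/
structure NatStr where
  /-- the operation -/
  add : ℕ → ℕ → ℕ
  /-- the relation -/
  lt : ℕ → ℕ → Prop
  /-- the values of the constants -/
  named : List ℕ

/-- `M` is a copy of the structure `(G, +, <, cs)`: it is isomorphic to it. -/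
def IsCopy {G : Type*} [Add G] [LT G] (cs : List G) (M : NatStr) : Prop :=
  ∃ f : ℕ ≃ G, (∀ a b, f (M.add a b) = f a + f b) ∧ (∀ a b, M.lt a b ↔ f a < f b) ∧
    M.named.map f = cs

/-- The atomic diagram of `M`: the codes of the true statements `a + b = c` (code `⟨0, a, b, c⟩`),
`a < b` (code `⟨1, a, b⟩`) and `c_k = a` (code `⟨k + 2, a⟩`) about natural numbers `a, b, c`. -/
def NatStr.diagram (M : NatStr) : Set ℕ :=
  {n | (∃ a b c, n = Nat.pair 0 (Nat.pair a (Nat.pair b c)) ∧ M.add a b = c) ∨
    (∃ a b, n = Nat.pair 1 (Nat.pair a b) ∧ M.lt a b) ∨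
    ∃ k a, n = Nat.pair (k + 2) a ∧ M.named[k]? = some a}

open Classical in
/-- The Turing degree of a set of natural numbers: that of its characteristic function. -/
noncomputable def degree (A : Set ℕ) : TuringDegree :=
  toAntisymmetrization TuringReducible (fun n => Part.some (if n ∈ A then 1 else 0))

/-- The degree spectrum of `(G, +, <, cs)`: all degrees of its copies with domain `ℕ`. -/
def DgSp (G : Type*) [Add G] [LT G] (cs : List G) : Set TuringDegree :=
  {d | ∃ M : NatStr, IsCopy cs M ∧ d = degree M.diagram}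

theorem degree_eq (A : Set ℕ) : degree A = dg A := rfl

theorem diagram_eq {G : Type*} [AddCommGroup G] [LinearOrder G] [IsOrderedAddMonoid G]
    {cs : List G} {M : NatStr} (f : ℕ ≃ G) (h1 : ∀ a b, f (M.add a b) = f a + f b)
    (h2 : ∀ a b, M.lt a b ↔ f a < f b) (h3 : M.named.map f = cs) : M.diagram = diag cs f := by
  ext n
  unfold NatStr.diagram diag
  rw [Set.mem_ofPred_eq, Set.mem_ofPred_eq]
  refine or_congr ?_ (or_congr ?_ ?_)
  · constructor
    · rintro ⟨a, b, c, rfl, h⟩
      simp only [Nat.unpair_pair]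
      exact ⟨trivial, by rw [← h1, h]⟩
    · rintro ⟨h4, h5⟩
      refine ⟨n.unpair.2.unpair.1, n.unpair.2.unpair.2.unpair.1, n.unpair.2.unpair.2.unpair.2,
        ?_, ?_⟩
      · rw [← h4, Nat.pair_unpair, Nat.pair_unpair, Nat.pair_unpair]
      · apply f.injective
        rw [h1, h5]
  · constructor
    · rintro ⟨a, b, rfl, h⟩
      simp only [Nat.unpair_pair]
      exact ⟨trivial, (h2 _ _).1 h⟩
    · rintro ⟨h4, h5⟩
      refine ⟨n.unpair.2.unpair.1, n.unpair.2.unpair.2, ?_, (h2 _ _).2 h5⟩
      rw [← h4, Nat.pair_unpair, Nat.pair_unpair]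
  · constructor
    · rintro ⟨k, a, rfl, h⟩
      simp only [Nat.unpair_pair]
      refine ⟨k, rfl, ?_⟩
      rw [← h3, List.getElem?_map, h]
      rfl
    · rintro ⟨k, h4, h5⟩
      refine ⟨k, n.unpair.2, ?_, ?_⟩
      · rw [← h4, Nat.pair_unpair]
      · rw [← h3, List.getElem?_map, Option.map_eq_some_iff] at h5
        obtain ⟨a, ha, ha2⟩ := h5
        rw [ha, f.injective ha2]

theorem dgSp_eq {G : Type*} [AddCommGroup G] [LinearOrder G] [IsOrderedAddMonoid G]
    (cs : List G) : DgSp G cs = Spec G cs := by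
  ext d
  constructor
  · rintro ⟨M, ⟨f, h1, h2, h3⟩, rfl⟩
    refine ⟨f, ?_⟩
    rw [degree_eq, diagram_eq f h1 h2 h3]
    rfl
  · rintro ⟨f, rfl⟩
    let M : NatStr := ⟨fun a b => f.symm (f a + f b), fun a b => f a < f b, cs.map f.symm⟩
    have h1 : ∀ a b, f (M.add a b) = f a + f b := fun a b => f.apply_symm_apply _
    have h2 : ∀ a b, M.lt a b ↔ f a < f b := fun a b => Iff.rfl
    have h3 : M.named.map f = cs := by
      show (cs.map f.symm).map f = cs
      rw [List.map_map]
      simp
    refine ⟨M, ⟨f, h1, h2, h3⟩, ?_⟩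
    rw [degree_eq, diagram_eq f h1 h2 h3]
    rfl

/-- The main theorem, for arbitrary finite lists of named elements. -/
theorem main {V : Type*} [AddCommGroup V] [LinearOrder V] [IsOrderedAddMonoid V] [Nontrivial V]
    (hdiv : ∀ n : ℕ, n ≠ 0 → ∀ v : V, ∃ w : V, n • w = v) (cs : List V) (cs' : List (V ×ₗ ℤ)) :
    DgSp V cs = DgSp (V ×ₗ ℤ) cs' := by
  obtain ⟨inst⟩ := exists_module hdiv
  rw [dgSp_eq, dgSp_eq, spec_eq cs cs']

end Pool.Agent.R626.VZ
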